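import Pool.Agent.R858.CY.Stm

/-!
# The Baer-Suzuki theorem for one element (task CY-BS), after `Pool.Agent.H687R3.AL.BaerSuzuki`
-/

set_option autoImplicit false

universe u

namespace Pool.Agent.R858.CY

open Subgroup MulAction

namespace BS

variable {G : Type u} [Group G]

/-- the conjugacy class of `τ` -/
def cl (τ : G) : Set G := {d | ∃ g, d = g * τ * g⁻¹}

theorem cl_conj {τ d : G} (hd : d ∈ cl τ) (g : G) : g * d * g⁻¹ ∈ cl τ := by
  obtain ⟨a, rfl⟩ := hd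
  exact ⟨g * a, by group⟩

theorem conj_pow_mem {x : G} {H : Subgroup G} (h : ∀ g ∈ H, x * g * x⁻¹ ∈ H) (k : ℕ) :
    ∀ g ∈ H, x ^ k * g * (x ^ k)⁻¹ ∈ H := by
  induction k with
  | zero => intro g hg; simpa using hg
  | succ k ih =>
    intro g hg
    have h1 := ih _ (h g hg)
    have e : x ^ (k + 1) * g * (x ^ (k + 1))⁻¹ = x ^ k * (x * g * x⁻¹) * (x ^ k)⁻¹ := by
      rw [pow_succ]; group
    rwa [e]

/-- in a finite group an element normalises a subgroup as soon as conjugation maps it into itself -/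
theorem mem_norm_of [Finite G] {x : G} {H : Subgroup G}
    (h : ∀ g ∈ H, x * g * x⁻¹ ∈ H) : x ∈ normalizer (H : Set G) := by
  rw [mem_normalizer_iff]
  intro g
  refine ⟨fun hg => h g hg, fun hg => ?_⟩
  have h1 := conj_pow_mem h (orderOf x - 1) _ hg
  have hx : x ^ (orderOf x - 1) = x⁻¹ := by
    rw [eq_inv_iff_mul_eq_one, ← pow_succ, Nat.sub_add_cancel (orderOf_pos x), pow_orderOf_eq_one]
  rw [hx] at h1
  have e : x⁻¹ * (x * g * x⁻¹) * (x⁻¹)⁻¹ = g := by group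
  rwa [e] at h1

theorem two_pgroup {p : ℕ} {τ d d' : G}
    (h : ∀ g : G, IsPGroup p (closure ({τ, g * τ * g⁻¹} : Set G)))
    (hd : d ∈ cl τ) (hd' : d' ∈ cl τ) : IsPGroup p (closure ({d, d'} : Set G)) := by
  obtain ⟨a, rfl⟩ := hd
  obtain ⟨b, rfl⟩ := hd'
  have h1 := (h (a⁻¹ * b)).map (MulAut.conj a).toMonoidHom
  refine h1.to_le ?_
  rw [MonoidHom.map_closure, closure_le]
  rintro z (rfl | hz)
  · refine subset_closure ⟨τ, by simp, by simp⟩
  · rw [Set.mem_singleton_iff] at hz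
    subst hz
    refine subset_closure ⟨a⁻¹ * b * τ * (a⁻¹ * b)⁻¹, by simp, ?_⟩
    simp only [MulEquiv.toMonoidHom_eq_coe, MonoidHom.coe_coe, MulAut.conj_apply]
    group

/-- growth: if `E = T₀ ∩ cl τ` misses an element of `P ∩ cl τ`, some element of `P ∩ cl τ`
outside of `E` normalises `E` -/
theorem exists_norm [Finite G] {p : ℕ} [Fact p.Prime] (τ : G) (P Q : Sylow p G)
    (hne : ∃ z ∈ P, z ∈ cl τ ∧ z ∉ Q) :
    ∃ x ∈ P, x ∈ cl τ ∧ x ∉ Q ∧
      ∀ g, g ∈ P → g ∈ Q → g ∈ cl τ → (x * g * x⁻¹ ∈ P ∧ x * g * x⁻¹ ∈ Q) := by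
  classical
  let S : Set (Subgroup G) := {T | T ≤ (P : Subgroup G) ∧ (P ⊓ Q : Subgroup G) ≤ T ∧
    ∀ g ∈ T, g ∈ cl τ → g ∈ Q}
  have hS : S.Nonempty := ⟨(P ⊓ Q : Subgroup G), inf_le_left, le_rfl, fun g hg _ => hg.2⟩
  obtain ⟨T, hTm⟩ := (Set.toFinite S).exists_maximal hS
  obtain ⟨hTP, hTQ, hTD⟩ := hTm.prop
  have hmax : ∀ T' : Subgroup G, T' ∈ S → T ≤ T' → T' ≤ T := fun T' hT' h => hTm.le_of_ge hT' h
  obtain ⟨z, hzP, hzD, hzQ⟩ := hne
  have hTne : T ≠ P := by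
    intro h
    exact hzQ (hTD z (by rw [h]; exact hzP) hzD)
  have hlt : T < (P : Subgroup G) := lt_of_le_of_ne hTP hTne
  -- normalizer growth in the `2`-group `P`
  obtain ⟨s, hsP, hsT, hsN⟩ : ∃ s ∈ (P : Subgroup G), s ∉ T ∧ s ∈ normalizer (T : Set G) := by
    have hnil : Group.IsNilpotent (P : Subgroup G) := P.2.isNilpotent
    have hlt2 : T.subgroupOf P < ⊤ := by
      rw [lt_top_iff_ne_top]
      intro h
      rw [subgroupOf_eq_top] at h
      exact hTne (le_antisymm hTP h)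
    have hgrow := (Group.normalizerCondition_of_isNilpotent (G := (P : Subgroup G)))
      (T.subgroupOf P) hlt2
    obtain ⟨s, hs1, hs2⟩ := SetLike.exists_of_lt hgrow
    refine ⟨s.1, s.2, fun h => hs2 (mem_subgroupOf.2 h), ?_⟩
    rw [mem_normalizer_iff] at hs1 ⊢
    intro g
    constructor
    · intro hg
      have := (hs1 ⟨g, hTP hg⟩).1 (mem_subgroupOf.2 hg)
      exact mem_subgroupOf.1 this
    · intro hg
      have hgP : g ∈ (P : Subgroup G) := by
        have h1 := hTP hg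
        have h2 := mul_mem (mul_mem (inv_mem s.2) h1) s.2
        have e : (s : G)⁻¹ * (s * g * (s : G)⁻¹) * s = g := by group
        rwa [e] at h2
      have := (hs1 ⟨g, hgP⟩).2 (mem_subgroupOf.2 hg)
      exact mem_subgroupOf.1 this
  set T' : Subgroup G := (P : Subgroup G) ⊓ normalizer (T : Set G) with hT'
  have hTT' : T ≤ T' := le_inf hTP le_normalizer
  have hsT' : s ∈ T' := ⟨hsP, hsN⟩
  have hT'S : T' ∉ S := fun h => hsT (hmax T' h hTT' hsT')
  have : ∃ x ∈ T', x ∈ cl τ ∧ x ∉ Q := by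
    by_contra hcon
    push Not at hcon
    exact hT'S ⟨inf_le_left, hTQ.trans hTT', hcon⟩
  obtain ⟨x, hxT', hxD, hxQ⟩ := this
  refine ⟨x, hxT'.1, hxD, hxQ, ?_⟩
  intro g hgP hgQ hgD
  have h1 : g ∈ T := hTQ ⟨hgP, hgQ⟩
  have h2 : x * g * x⁻¹ ∈ T := (mem_normalizer_iff.1 hxT'.2 g).1 h1
  exact ⟨hTP h2, hTD _ h2 (cl_conj hgD x)⟩

theorem ncard_eq [Finite G] {p : ℕ} [Fact p.Prime] (τ : G) (P Q : Sylow p G) :
    Set.ncard {z | z ∈ P ∧ z ∈ cl τ} = Set.ncard {z | z ∈ Q ∧ z ∈ cl τ} := by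
  obtain ⟨g, hg⟩ := MulAction.exists_smul_eq G P Q
  have hmem : ∀ z, z ∈ Q ↔ g⁻¹ * z * g ∈ P := by
    intro z
    rw [← hg]
    change z ∈ (g • P : Sylow p G).toSubgroup ↔ _
    rw [Sylow.coe_subgroup_smul, Subgroup.mem_pointwise_smul_iff_inv_smul_mem]
    have e : (MulAut.conj g)⁻¹ • z = g⁻¹ * z * g := by
      rw [← map_inv]
      simp [MulAut.smul_def]
    rw [e]
    rfl
  refine Set.ncard_congr (fun z _ => g * z * g⁻¹) ?_ ?_ ?_
  · rintro z ⟨hz1, hz2⟩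
    refine ⟨?_, cl_conj hz2 g⟩
    rw [hmem]
    have e : g⁻¹ * (g * z * g⁻¹) * g = z := by group
    rwa [e]
  · intro a b _ _ hab
    have e : ∀ t : G, g⁻¹ * (g * t * g⁻¹) * g = t := fun t => by group
    rw [← e a, ← e b]
    exact congrArg (fun t => g⁻¹ * t * g) hab
  · rintro z ⟨hz1, hz2⟩
    refine ⟨g⁻¹ * z * g, ⟨(hmem z).1 hz1, ?_⟩, by group⟩
    have := cl_conj hz2 g⁻¹
    rwa [inv_inv] at this

end BS

open BS in
/-- **Baer-Suzuki theorem** for one element. -/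
theorem bs : S_BS.{u} := by
  classical
  intro G _ _ p _ τ h
  -- all Sylow subgroups contain the same conjugates
  have key : ∀ P Q : Sylow p G, {z | z ∈ P ∧ z ∈ cl τ} = {z | z ∈ Q ∧ z ∈ cl τ} := by
    by_contra hcon
    push Not at hcon
    let S : Set (Sylow p G × Sylow p G) :=
      {pq | {z | z ∈ pq.1 ∧ z ∈ cl τ} ≠ {z | z ∈ pq.2 ∧ z ∈ cl τ}}
    have hSne : S.Nonempty := by
      obtain ⟨P, Q, hPQ⟩ := hcon
      exact ⟨(P, Q), hPQ⟩
    obtain ⟨⟨P, Q⟩, hPQ, hmax⟩ := Set.exists_max_image S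
      (fun pq => Set.ncard {z | (z ∈ pq.1 ∧ z ∈ pq.2) ∧ z ∈ cl τ}) (Set.toFinite S) hSne
    have hne : {z | z ∈ P ∧ z ∈ cl τ} ≠ {z | z ∈ Q ∧ z ∈ cl τ} := hPQ
    have hcard := ncard_eq τ P Q
    have h1 : ∃ z ∈ P, z ∈ cl τ ∧ z ∉ Q := by
      by_contra hc
      push Not at hc
      exact hne (Set.eq_of_subset_of_ncard_le (fun z hz => ⟨hc z hz.1 hz.2, hz.2⟩)
        hcard.symm.le (Set.toFinite _))
    have h2 : ∃ z ∈ Q, z ∈ cl τ ∧ z ∉ P := by
      by_contra hc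
      push Not at hc
      have hsub : {z | z ∈ Q ∧ z ∈ cl τ} ⊆ {z | z ∈ P ∧ z ∈ cl τ} :=
        fun z hz => ⟨hc z hz.1 hz.2, hz.2⟩
      exact hne (Set.eq_of_subset_of_ncard_le hsub hcard.le (Set.toFinite _)).symm
    obtain ⟨x, hxP, hxD, hxQ, hxN⟩ := exists_norm τ P Q h1
    obtain ⟨y, hyQ, hyD, hyP, hyN⟩ := exists_norm τ Q P h2
    let E : Set G := {z | (z ∈ P ∧ z ∈ Q) ∧ z ∈ cl τ}
    have hnorm : ∀ w : G, w ∈ cl τ → (∀ g ∈ E, w * g * w⁻¹ ∈ E) →
        w ∈ normalizer (closure E : Set G) := by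
      intro w hw hwE
      refine mem_norm_of ?_
      intro g hg
      have hle : closure E ≤ (closure E).comap (MulAut.conj w).toMonoidHom := by
        rw [closure_le]
        intro z hz
        rw [SetLike.mem_coe, mem_comap]
        simp only [MulEquiv.toMonoidHom_eq_coe, MonoidHom.coe_coe, MulAut.conj_apply]
        exact subset_closure (hwE z hz)
      have := hle hg
      rw [mem_comap] at this
      simpa only [MulEquiv.toMonoidHom_eq_coe, MonoidHom.coe_coe, MulAut.conj_apply] using this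
    have hxR : x ∈ normalizer (closure E : Set G) := by
      refine hnorm x hxD ?_
      rintro g ⟨⟨hgP, hgQ⟩, hgD⟩
      exact ⟨hxN g hgP hgQ hgD, cl_conj hgD x⟩
    have hyR : y ∈ normalizer (closure E : Set G) := by
      refine hnorm y hyD ?_
      rintro g ⟨⟨hgP, hgQ⟩, hgD⟩
      exact ⟨(hyN g hgQ hgP hgD).symm, cl_conj hgD y⟩
    have hEp : IsPGroup p (closure E) := by
      refine P.2.to_le ?_
      rw [closure_le]
      exact fun z hz => hz.1.1
    have hXY := two_pgroup h hxD hyD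
    have hXYN : closure ({x, y} : Set G) ≤ normalizer (closure E : Set G) := by
      rw [closure_le]
      intro z hz
      rcases hz with rfl | hz
      · exact hxR
      · rw [Set.mem_singleton_iff] at hz
        subst hz
        exact hyR
    have hsup := IsPGroup.to_sup_of_normal_left' hEp hXY hXYN
    obtain ⟨R, hR⟩ := hsup.exists_le_sylow
    have hxS : x ∈ R := hR (mem_sup_right (subset_closure (by simp)))
    have hyS : y ∈ R := hR (mem_sup_right (subset_closure (by simp)))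
    have hlt : Set.ncard {z | (z ∈ P ∧ z ∈ Q) ∧ z ∈ cl τ} <
        Set.ncard {z | (z ∈ P ∧ z ∈ R) ∧ z ∈ cl τ} := by
      refine Set.ncard_lt_ncard ?_ (Set.toFinite _)
      refine ⟨fun z hz => ⟨⟨hz.1.1, hR (mem_sup_left (subset_closure hz))⟩, hz.2⟩, ?_⟩
      intro hc
      exact hxQ (hc (show x ∈ {z | (z ∈ P ∧ z ∈ R) ∧ z ∈ cl τ} from ⟨⟨hxP, hxS⟩, hxD⟩)).1.2
    have hPR : {z | z ∈ P ∧ z ∈ cl τ} = {z | z ∈ R ∧ z ∈ cl τ} := by
      by_contra hc
      exact absurd (hmax (P, R) hc) (not_le.2 hlt)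
    have : y ∈ {z | z ∈ P ∧ z ∈ cl τ} := by
      rw [hPR]
      exact ⟨hyS, hyD⟩
    exact hyP this.1
  -- conclusion
  obtain ⟨P⟩ := (inferInstance : Nonempty (Sylow p G))
  have hDP : ∀ d ∈ cl τ, d ∈ P := by
    intro d hd
    have h1 : IsPGroup p (zpowers d) := (two_pgroup h hd hd).to_le (by
      rw [zpowers_le]
      exact subset_closure (by simp))
    obtain ⟨Q, hQ⟩ := h1.exists_le_sylow
    have h2 : d ∈ {z | z ∈ Q ∧ z ∈ cl τ} := ⟨hQ (mem_zpowers d), hd⟩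
    rw [key Q P] at h2
    exact h2.1
  refine P.2.to_le ?_
  rw [normalClosure, closure_le]
  intro z hz
  rw [Group.mem_conjugatesOfSet_iff] at hz
  obtain ⟨a, ha, hc⟩ := hz
  rw [Set.mem_singleton_iff] at ha
  subst ha
  rw [isConj_iff] at hc
  obtain ⟨g, hg⟩ := hc
  exact hDP z ⟨g, hg.symm⟩

end Pool.Agent.R858.CY
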