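import Pool.Agent.R858.CY.NoT

set_option autoImplicit false

/-!
Boolean checks of the numerical conditions.
-/

universe u

namespace Pool.Agent.R858.CY

open Subgroup

/-- divisors -/
def divs (n : ℕ) : List ℕ := (List.range (n + 1)).filter (fun d => d != 0 && n % d == 0)

theorem mem_divs {n d : ℕ} (hn : 0 < n) (hd : d ∣ n) : d ∈ divs n := by
  rw [divs, List.mem_filter, List.mem_range]
  refine ⟨Nat.lt_succ_of_le (Nat.le_of_dvd hn hd), ?_⟩
  have h1 : d ≠ 0 := by
    rintro rfl
    rw [zero_dvd_iff] at hd
    omega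
  simp [h1, Nat.mod_eq_zero_of_dvd hd]

/-- Euler function -/
def tot (n : ℕ) : ℕ := ((List.range n).filter (fun a => Nat.gcd n a == 1)).length

theorem tot_eq (n : ℕ) : Nat.totient n = tot n := by
  rw [Nat.totient_eq_card_coprime, tot]
  have h1 : (List.range n).filter (fun a => Nat.gcd n a == 1) =
      (List.range n).filter (fun a => decide (n.Coprime a)) := by
    apply List.filter_congr
    intro a _
    exact Bool.eq_iff_iff.2 (by rw [beq_iff_eq, decide_eq_true_iff])
  rw [h1]
  rfl

/-- small primes -/
def PL : List ℕ := [2, 3, 5, 7, 11, 13, 17, 19, 23, 29, 31, 59]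

theorem PL_prime : ∀ l ∈ PL, l.Prime := by
  intro l hl
  simp only [PL, List.mem_cons, List.not_mem_nil, or_false] at hl
  rcases hl with rfl | rfl | rfl | rfl | rfl | rfl | rfl | rfl | rfl | rfl | rfl | rfl <;> norm_num

/-- some prime divisor of `k` is too large -/
def badl (p r k : ℕ) : Bool := PL.any (fun l => k % l == 0 && decide (p * r ≤ (p * l) ^ 2))

theorem badl_false {p r k : ℕ} (h : ∀ l : ℕ, l.Prime → l ∣ k → (p * l) ^ 2 < p * r) :
    badl p r k = false := by
  rw [badl, List.any_eq_false]
  intro l hl hh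
  rw [Bool.and_eq_true, beq_iff_eq, decide_eq_true_eq] at hh
  have := h l (PL_prime l hl) (Nat.dvd_of_mod_eq_zero hh.1)
  omega

/-- all possibilities have `e = 1` -/
def chk2 (p r : ℕ) : Bool := (divs r).all (fun m => decide (m ≤ 1) || (m % p != 1) ||
  (divs (r / m)).all (fun e => (e == 1) || ((p - 1) % e != 0) || badl p r (r / m / e)))

theorem chk2_spec {p r : ℕ} (hr : 0 < r) (h : chk2 p r = true) : ∀ m e k : ℕ, r = m * e * k → 1 < m →
    m % p = 1 → e ∣ p - 1 → (∀ l : ℕ, l.Prime → l ∣ k → (p * l) ^ 2 < p * r) → e = 1 := by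
  intro m e k h1 h2 h3 h4 h5
  have hm : m ∣ r := ⟨e * k, by rw [h1, mul_assoc]⟩
  have hm0 : 0 < m := by omega
  have hrm : r / m = e * k := by
    rw [h1, mul_assoc, Nat.mul_div_cancel_left _ hm0]
  have hek : 0 < e * k := by
    rcases Nat.eq_zero_or_pos (e * k) with h | h
    · rw [h1, mul_assoc, h] at hr
      omega
    · exact h
  have he0 : 0 < e := Nat.pos_of_mul_pos_right hek
  have hrme : r / m / e = k := by rw [hrm, Nat.mul_div_cancel_left _ he0]
  rw [chk2, List.all_eq_true] at h
  have h6 := h m (mem_divs hr hm)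
  have h7 : decide (m ≤ 1) = false := by
    rw [decide_eq_false_iff_not]
    omega
  have h8 : (m % p != 1) = false := by simp [h3]
  rw [h7, h8, Bool.false_or, Bool.false_or, List.all_eq_true] at h6
  have h9 := h6 e (mem_divs (by rw [hrm]; exact hek) (by rw [hrm]; exact dvd_mul_right e k))
  rw [hrme, badl_false h5, Bool.or_false, Nat.mod_eq_zero_of_dvd h4] at h9
  simpa using h9

/-- maximum of a function over a list -/
def lmax (L : List ℕ) (f : ℕ → ℕ) : ℕ := (L.map f).foldr max 0

theorem le_lmax {L : List ℕ} {f : ℕ → ℕ} {d : ℕ} (hd : d ∈ L) : f d ≤ lmax L f := by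
  induction L with
  | nil => simp at hd
  | cons a L ih =>
    have h1 : lmax (a :: L) f = max (f a) (lmax L f) := rfl
    rw [h1]
    rcases List.mem_cons.1 hd with rfl | h
    · exact le_max_left _ _
    · exact (ih h).trans (le_max_right _ _)

/-- rounded up division -/
def cdiv (a b : ℕ) : ℕ := (a + b - 1) / b

theorem cdiv_le {a b c : ℕ} (h : a ≤ c * b) : cdiv a b ≤ c := by
  rcases Nat.eq_zero_or_pos b with rfl | hb
  · simp [cdiv]
  · rw [cdiv, ← Nat.lt_succ_iff, Nat.div_lt_iff_lt_mul hb, Nat.succ_mul]
    omega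

/-- bound for the elements of order divisible by `p` -/
def F1 (p k n : ℕ) : ℕ := lmax (divs (p * k)) (fun d => bif (d % p == 0 && decide (d ^ 2 < n)) then tot d else 0)

/-- bound for the other elements -/
def F2 (r n : ℕ) : ℕ := lmax (divs r) (fun d => bif decide (d ^ 2 < n) then tot d else 0)

/-- the check of a lower bound for the number of cyclic subgroups -/
def chkB (p r need : ℕ) (skip : Bool) : Bool := (divs r).all (fun m => decide (m ≤ 1) || (m % p != 1) ||
  (divs (r / m)).all (fun e => (skip && (e == 1)) || ((p - 1) % e != 0) || badl p r (r / m / e) ||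
    decide (need ≤ cdiv (m * (p - 1) * (r / m / e)) (F1 p (r / m / e) (p * r)) +
      cdiv (p * r - m * (p - 1) * (r / m / e)) (F2 r (p * r)))))

theorem bound_of_chk (hBS : S_BS.{u}) (hSTR : S_STR.{u}) {p r need : ℕ} {skip : Bool} (hp : p.Prime)
    (hpr : ¬ p ∣ r) (hskip : skip = true → NoT.{u} r) (hchk : chkB p r need skip = true)
    {G : Type u} [Group G] [Finite G] (hT : TG G) (hG : Nat.card G = p * r) : need ≤ cyc G := by
  have hr : 0 < r := by
    rcases Nat.eq_zero_or_pos r with h | h
    · exact absurd (by rw [h]; exact dvd_zero p) hpr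
    · exact h
  have h0 : 1 < Nat.card G := by
    rw [hG]
    calc 1 < p := hp.one_lt
      _ ≤ p * r := Nat.le_mul_of_pos_right _ hr
  have hord := order_sq_lt hBS hT h0
  obtain ⟨m, e, k, h1, h2, h3, h4, h5, h6, h7, h8⟩ := hSTR G p r hp hT hG hpr
  have hm : m ∣ r := ⟨e * k, by rw [h1, mul_assoc]⟩
  have hm0 : 0 < m := by omega
  have hrm : r / m = e * k := by
    rw [h1, mul_assoc, Nat.mul_div_cancel_left _ hm0]
  have hek : 0 < e * k := by
    rcases Nat.eq_zero_or_pos (e * k) with h | h
    · rw [h1, mul_assoc, h] at hr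
      omega
    · exact h
  have he0 : 0 < e := Nat.pos_of_mul_pos_right hek
  have hk0 : 0 < k := Nat.pos_of_mul_pos_left hek
  have hrme : r / m / e = k := by rw [hrm, Nat.mul_div_cancel_left _ he0]
  have hbad : badl p r k = false := by
    apply badl_false
    intro l hl hlk
    obtain ⟨g, hg⟩ := h6 l hl hlk
    have := hord g
    rwa [hg, hG] at this
  have hskip1 : (skip && (e == 1)) = false := by
    by_contra hne
    rw [Bool.not_eq_false, Bool.and_eq_true, beq_iff_eq] at hne
    obtain ⟨K, hK, hKr⟩ := h5 hne.2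
    exact hskip hne.1 K hKr (hT.normal K)
  rw [chkB, List.all_eq_true] at hchk
  have h9 := hchk m (mem_divs hr hm)
  have h10 : decide (m ≤ 1) = false := by
    rw [decide_eq_false_iff_not]
    omega
  have h11 : (m % p != 1) = false := by simp [h3]
  rw [h10, h11, Bool.false_or, Bool.false_or, List.all_eq_true] at h9
  have h12 := h9 e (mem_divs (by rw [hrm]; exact hek) (by rw [hrm]; exact dvd_mul_right e k))
  rw [hrme, hbad, hskip1, Nat.mod_eq_zero_of_dvd h4] at h12
  have h13 : need ≤ cdiv (m * (p - 1) * k) (F1 p k (p * r)) +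
      cdiv (p * r - m * (p - 1) * k) (F2 r (p * r)) := by simpa using h12
  have hc1 : Nat.card {g : G // p ∣ orderOf g} ≤ cycQ G (fun n => p ∣ n) * F1 p k (p * r) := by
    apply cnt_le
    intro g hg
    have hg2 := h8 g hg
    have hg3 := hord g
    rw [hG] at hg3
    have h14 := le_lmax (f := fun d => bif (d % p == 0 && decide (d ^ 2 < p * r)) then tot d else 0)
      (mem_divs (Nat.mul_pos hp.pos hk0) hg2)
    simp only [Nat.mod_eq_zero_of_dvd hg, decide_eq_true hg3] at h14
    rw [tot_eq]
    simpa [F1] using h14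
  have hc2 : Nat.card {g : G // ¬ p ∣ orderOf g} ≤ cycQ G (fun n => ¬ p ∣ n) * F2 r (p * r) := by
    apply cnt_le (fun n => ¬ p ∣ n)
    intro g hg
    have hg2 : orderOf g ∣ r := by
      have h15 : orderOf g ∣ p * r := by
        rw [← hG]
        exact orderOf_dvd_natCard g
      refine Nat.Coprime.dvd_of_dvd_mul_left ?_ h15
      rw [Nat.coprime_comm, hp.coprime_iff_not_dvd]
      exact hg
    have hg3 := hord g
    rw [hG] at hg3
    have h14 := le_lmax (f := fun d => bif decide (d ^ 2 < p * r) then tot d else 0)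
      (mem_divs hr hg2)
    simp only [decide_eq_true hg3] at h14
    rw [tot_eq]
    simpa [F2] using h14
  have hs1 := card_split (G := G) (fun n => p ∣ n)
  have hs2 := cyc_split (G := G) (fun n => p ∣ n)
  rw [h7] at hc1 hs1
  have hc3 : p * r - m * (p - 1) * k ≤ cycQ G (fun n => ¬ p ∣ n) * F2 r (p * r) := by
    refine le_trans (le_of_eq ?_) hc2
    rw [← hG, hs1]
    omega
  have e1 := cdiv_le hc1
  have e2 := cdiv_le hc3
  rw [hs2]
  exact h13.trans (Nat.add_le_add e1 e2)

theorem ex120 : chkB 3 40 32 true = true := by decide +kernel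
theorem ex168 : chkB 7 24 32 false = true := by decide +kernel
theorem ex180 : chkB 5 36 32 false = true := by decide +kernel
theorem ex240 : chkB 5 48 32 false = true := by decide +kernel
theorem ex264 : chkB 11 24 32 false = true := by decide +kernel
theorem ex552 : chkB 3 184 32 true = true := by decide +kernel
theorem ex420 : chkB 5 84 64 true = true := by decide +kernel
theorem ex1260 : chkB 7 180 64 false = true := by decide +kernel
theorem ex4620 : chkB 11 420 128 false = true := by decide +kernel
theorem ex5460 : chkB 5 1092 128 false = true := by decide +kernel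
theorem ex12 : chk2 3 4 = true := by decide +kernel
theorem ex3465 : chk2 11 315 = true := by decide +kernel
theorem ex6930 : chk2 2 3465 = true := by decide +kernel

end Pool.Agent.R858.CY
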