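import Pool.Agent.R858.CY.Stm

set_option autoImplicit false

/-!
Counting cyclic subgroups through their generators.
-/

universe u

namespace Pool.Agent.R858.CY

open Subgroup

variable {G : Type u} [Group G] [Finite G]

/-- the number of cyclic subgroups whose order satisfies `Q` -/
noncomputable def cycQ (G : Type u) [Group G] (Q : ℕ → Prop) : ℕ :=
  Nat.card {H : Subgroup G // IsCyclic H ∧ Q (Nat.card H)}

theorem card_gen_le (H : Subgroup G) (hH : IsCyclic H) :
    Nat.card {g : G // zpowers g = H} ≤ Nat.totient (Nat.card H) := by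
  classical
  haveI := Fintype.ofFinite H
  have h1 := IsCyclic.card_orderOf_eq_totient (α := H) (d := Nat.card H)
    (by rw [Nat.card_eq_fintype_card])
  rw [← h1]
  have h2 : (Finset.univ.filter (fun a : H => orderOf a = Nat.card H)).card =
      Nat.card {a : H // orderOf a = Nat.card H} := by
    rw [Nat.card_eq_fintype_card (α := {a : H // orderOf a = Nat.card H}), Fintype.card_subtype]
  rw [h2]
  refine Nat.card_le_card_of_injective
    (fun g => ⟨⟨g.1, by have := Subgroup.mem_zpowers g.1; rw [g.2] at this; exact this⟩, ?_⟩) ?_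
  · rw [Subgroup.orderOf_mk, ← Nat.card_zpowers, g.2]
  · intro g g' hgg
    have h3 := congrArg (fun z => ((z.1 : H) : G)) hgg
    exact Subtype.ext h3

theorem cnt_le (Q : ℕ → Prop) (F : ℕ) (hF : ∀ g : G, Q (orderOf g) → Nat.totient (orderOf g) ≤ F) :
    Nat.card {g : G // Q (orderOf g)} ≤ cycQ G Q * F := by
  classical
  let f : {g : G // Q (orderOf g)} → {H : Subgroup G // IsCyclic H ∧ Q (Nat.card H)} :=
    fun g => ⟨zpowers g.1, inferInstance, by rw [Nat.card_zpowers]; exact g.2⟩
  haveI := Fintype.ofFinite {H : Subgroup G // IsCyclic H ∧ Q (Nat.card H)}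
  rw [Nat.card_congr (Equiv.sigmaFiberEquiv f).symm, Nat.card_sigma]
  have h1 : ∀ H : {H : Subgroup G // IsCyclic H ∧ Q (Nat.card H)},
      Nat.card {g : {g : G // Q (orderOf g)} // f g = H} ≤ F := by
    intro H
    have h2 : Nat.card {g : {g : G // Q (orderOf g)} // f g = H} ≤
        Nat.card {g : G // zpowers g = H.1} := by
      refine Nat.card_le_card_of_injective (fun g => ⟨g.1.1, congrArg Subtype.val g.2⟩) ?_
      intro g g' hgg
      have h3 := congrArg Subtype.val hgg
      exact Subtype.ext (Subtype.ext h3)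
    refine h2.trans ((card_gen_le H.1 H.2.1).trans ?_)
    obtain ⟨⟨a, ha⟩, hgen⟩ := H.2.1.exists_zpow_surjective
    have h4 : orderOf a = Nat.card H.1 := by
      have := orderOf_eq_card_of_forall_mem_zpowers (g := (⟨a, ha⟩ : H.1)) (fun x => hgen x)
      rw [← this, Subgroup.orderOf_mk]
    rw [← h4]
    apply hF
    rw [h4]
    exact H.2.2
  calc ∑ H, Nat.card {g : {g : G // Q (orderOf g)} // f g = H} ≤ ∑ _H : {H : Subgroup G // IsCyclic H ∧ Q (Nat.card H)}, F :=
        Finset.sum_le_sum (fun H _ => h1 H)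
    _ = cycQ G Q * F := by
        rw [Finset.sum_const, Finset.card_univ, smul_eq_mul, cycQ, Nat.card_eq_fintype_card]

theorem cyc_split (Q : ℕ → Prop) : cyc G = cycQ G Q + cycQ G (fun n => ¬ Q n) := by
  classical
  rw [cyc, cycQ, cycQ, ← Nat.card_sum]
  refine Nat.card_congr ⟨fun H => if h : Q (Nat.card H.1) then Sum.inl ⟨H.1, H.2, h⟩
    else Sum.inr ⟨H.1, H.2, h⟩, fun s => s.elim (fun H => ⟨H.1, H.2.1⟩) (fun H => ⟨H.1, H.2.1⟩), ?_, ?_⟩
  · intro H
    by_cases h : Q (Nat.card H.1) <;> simp [h]
  · rintro (H | H)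
    · have h := H.2.2
      simp [h]
    · have h := H.2.2
      simp [h]

theorem card_split (Q : ℕ → Prop) : Nat.card G =
    Nat.card {g : G // Q (orderOf g)} + Nat.card {g : G // ¬ Q (orderOf g)} := by
  classical
  rw [← Nat.card_sum]
  exact Nat.card_congr (Equiv.sumCompl (fun g : G => Q (orderOf g))).symm

/-- the number of elements is bounded by the number of cyclic subgroups -/
theorem cnt_all (F : ℕ) (hF : ∀ g : G, Nat.totient (orderOf g) ≤ F) : Nat.card G ≤ cyc G * F := by
  have h1 := cnt_le (G := G) (fun _ => True) F (fun g _ => hF g)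
  have h2 : Nat.card {g : G // True} = Nat.card G := Nat.card_congr (Equiv.subtypeUnivEquiv (fun _ => trivial))
  have h3 : cycQ G (fun _ => True) = cyc G := by
    rw [cycQ, cyc]
    exact Nat.card_congr (Equiv.subtypeEquivRight (fun H => by simp))
  rw [h2, h3] at h1
  exact h1

end Pool.Agent.R858.CY
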