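import Pool.Agent.R858.CY.Spc

set_option autoImplicit false

/-!
The excluded orders.
-/

universe u

namespace Pool.Agent.R858.CY

open Subgroup

theorem nT18 : NoT.{u} 18 := noT1 3 2 2 (by norm_num) (by norm_num) (by norm_num)
  (by norm_num) (by norm_num) (by decide +kernel)

theorem nT28 : NoT.{u} 28 := noT1 7 1 4 (by norm_num) (by norm_num) (by norm_num)
  (by norm_num) (by norm_num) (by decide +kernel)

theorem nT40 : NoT.{u} 40 := noT1 5 1 8 (by norm_num) (by norm_num) (by norm_num)
  (by norm_num) (by norm_num) (by decide +kernel)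

theorem nT45 : NoT.{u} 45 := noT1 3 2 5 (by norm_num) (by norm_num) (by norm_num)
  (by norm_num) (by norm_num) (by decide +kernel)

theorem nT50 : NoT.{u} 50 := noT1 5 2 2 (by norm_num) (by norm_num) (by norm_num)
  (by norm_num) (by norm_num) (by decide +kernel)

theorem nT56 (hBS : S_BS.{u}) (hSTR : S_STR.{u}) : NoT.{u} 56 :=
  noT2 hBS hSTR 7 8 (by norm_num) (by norm_num) (by norm_num) (by norm_num) noT8
  (by decide +kernel)

theorem nT63 : NoT.{u} 63 := noT1 7 1 9 (by norm_num) (by norm_num) (by norm_num)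
  (by norm_num) (by norm_num) (by decide +kernel)

theorem nT84 : NoT.{u} 84 := noT1 7 1 12 (by norm_num) (by norm_num) (by norm_num)
  (by norm_num) (by norm_num) (by decide +kernel)

theorem nT90 (hBS : S_BS.{u}) (hSTR : S_STR.{u}) : NoT.{u} 90 :=
  noT2 hBS hSTR 5 18 (by norm_num) (by norm_num) (by norm_num) (by norm_num) nT18
  (by decide +kernel)

theorem nT126 : NoT.{u} 126 := noT1 7 1 18 (by norm_num) (by norm_num) (by norm_num)
  (by norm_num) (by norm_num) (by decide +kernel)

theorem nT132 (hBS : S_BS.{u}) (hSTR : S_STR.{u}) : NoT.{u} 132 :=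
  noT2 hBS hSTR 11 12 (by norm_num) (by norm_num) (by norm_num) (by norm_num) (noT12 hBS hSTR)
  (by decide +kernel)

theorem nT140 : NoT.{u} 140 := noT1 5 1 28 (by norm_num) (by norm_num) (by norm_num)
  (by norm_num) (by norm_num) (by decide +kernel)

theorem nT198 : NoT.{u} 198 := noT1 11 1 18 (by norm_num) (by norm_num) (by norm_num)
  (by norm_num) (by norm_num) (by decide +kernel)

theorem nT220 : NoT.{u} 220 := noT1 11 1 20 (by norm_num) (by norm_num) (by norm_num)
  (by norm_num) (by norm_num) (by decide +kernel)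

theorem nT234 : NoT.{u} 234 := noT1 13 1 18 (by norm_num) (by norm_num) (by norm_num)
  (by norm_num) (by norm_num) (by decide +kernel)

theorem nT260 : NoT.{u} 260 := noT1 13 1 20 (by norm_num) (by norm_num) (by norm_num)
  (by norm_num) (by norm_num) (by decide +kernel)

theorem nT306 (hBS : S_BS.{u}) (hSTR : S_STR.{u}) : NoT.{u} 306 :=
  noT2 hBS hSTR 17 18 (by norm_num) (by norm_num) (by norm_num) (by norm_num) nT18
  (by decide +kernel)

theorem nT308 : NoT.{u} 308 := noT1 11 1 28 (by norm_num) (by norm_num) (by norm_num)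
  (by norm_num) (by norm_num) (by decide +kernel)

theorem nT312 : NoT.{u} 312 := noT1 13 1 24 (by norm_num) (by norm_num) (by norm_num)
  (by norm_num) (by norm_num) (by decide +kernel)

theorem nT340 : NoT.{u} 340 := noT1 5 1 68 (by norm_num) (by norm_num) (by norm_num)
  (by norm_num) (by norm_num) (by decide +kernel)

theorem nT364 : NoT.{u} 364 := noT1 7 1 52 (by norm_num) (by norm_num) (by norm_num)
  (by norm_num) (by norm_num) (by decide +kernel)

theorem nT380 (hBS : S_BS.{u}) (hSTR : S_STR.{u}) : NoT.{u} 380 :=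
  noT2 hBS hSTR 19 20 (by norm_num) (by norm_num) (by norm_num) (by norm_num) noT20
  (by decide +kernel)

theorem nT408 : NoT.{u} 408 := noT1 17 1 24 (by norm_num) (by norm_num) (by norm_num)
  (by norm_num) (by norm_num) (by decide +kernel)

theorem nT456 : NoT.{u} 456 := noT1 19 1 24 (by norm_num) (by norm_num) (by norm_num)
  (by norm_num) (by norm_num) (by decide +kernel)

theorem nT476 : NoT.{u} 476 := noT1 7 1 68 (by norm_num) (by norm_num) (by norm_num)
  (by norm_num) (by norm_num) (by decide +kernel)

theorem nT532 : NoT.{u} 532 := noT1 7 1 76 (by norm_num) (by norm_num) (by norm_num)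
  (by norm_num) (by norm_num) (by decide +kernel)

theorem nT184 : NoT.{u} 184 := noT1 23 1 8 (by norm_num) (by norm_num) (by norm_num)
  (by norm_num) (by norm_num) (by decide +kernel)

theorem nT644 : NoT.{u} 644 := noT1 23 1 28 (by norm_num) (by norm_num) (by norm_num)
  (by norm_num) (by norm_num) (by decide +kernel)

theorem nT315 (hBS : S_BS.{u}) (hSTR : S_STR.{u}) : NoT.{u} 315 :=
  noT2 hBS hSTR 5 63 (by norm_num) (by norm_num) (by norm_num) (by norm_num) nT63
  (by decide +kernel)

theorem nT630 (hBS : S_BS.{u}) (hSTR : S_STR.{u}) : NoT.{u} 630 :=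
  noT2 hBS hSTR 2 315 (by norm_num) (by norm_num) (by norm_num) (by norm_num) (nT315 hBS hSTR)
  (by decide +kernel)

theorem nT75 : NoT.{u} 75 := noT1 5 2 3 (by norm_num) (by norm_num) (by norm_num)
  (by norm_num) (by norm_num) (by decide +kernel)

theorem nT525 (hBS : S_BS.{u}) (hSTR : S_STR.{u}) : NoT.{u} 525 :=
  noT2 hBS hSTR 7 75 (by norm_num) (by norm_num) (by norm_num) (by norm_num) nT75
  (by decide +kernel)

theorem nT1050 (hBS : S_BS.{u}) (hSTR : S_STR.{u}) : NoT.{u} 1050 :=
  noT2 hBS hSTR 2 525 (by norm_num) (by norm_num) (by norm_num) (by norm_num) (nT525 hBS hSTR)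
  (by decide +kernel)

theorem nT1380 : NoT.{u} 1380 := noT1 23 1 60 (by norm_num) (by norm_num) (by norm_num)
  (by norm_num) (by norm_num) (by decide +kernel)

theorem nT147 : NoT.{u} 147 := noT1 7 2 3 (by norm_num) (by norm_num) (by norm_num)
  (by norm_num) (by norm_num) (by decide +kernel)

theorem nT735 (hBS : S_BS.{u}) (hSTR : S_STR.{u}) : NoT.{u} 735 :=
  noT2 hBS hSTR 5 147 (by norm_num) (by norm_num) (by norm_num) (by norm_num) nT147
  (by decide +kernel)

theorem nT1470 (hBS : S_BS.{u}) (hSTR : S_STR.{u}) : NoT.{u} 1470 :=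
  noT2 hBS hSTR 2 735 (by norm_num) (by norm_num) (by norm_num) (by norm_num) (nT735 hBS hSTR)
  (by decide +kernel)

theorem nT348 : NoT.{u} 348 := noT1 29 1 12 (by norm_num) (by norm_num) (by norm_num)
  (by norm_num) (by norm_num) (by decide +kernel)

theorem nT1740 (hBS : S_BS.{u}) (hSTR : S_STR.{u}) : NoT.{u} 1740 :=
  noT2 hBS hSTR 5 348 (by norm_num) (by norm_num) (by norm_num) (by norm_num) nT348
  (by decide +kernel)

theorem nT1860 : NoT.{u} 1860 := noT1 31 1 60 (by norm_num) (by norm_num) (by norm_num)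
  (by norm_num) (by norm_num) (by decide +kernel)

theorem nT2220 : NoT.{u} 2220 := noT1 37 1 60 (by norm_num) (by norm_num) (by norm_num)
  (by norm_num) (by norm_num) (by decide +kernel)

theorem nT2460 : NoT.{u} 2460 := noT1 41 1 60 (by norm_num) (by norm_num) (by norm_num)
  (by norm_num) (by norm_num) (by decide +kernel)

theorem nT2580 : NoT.{u} 2580 := noT1 43 1 60 (by norm_num) (by norm_num) (by norm_num)
  (by norm_num) (by norm_num) (by decide +kernel)

theorem nT2820 : NoT.{u} 2820 := noT1 47 1 60 (by norm_num) (by norm_num) (by norm_num)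
  (by norm_num) (by norm_num) (by decide +kernel)

theorem nT3180 : NoT.{u} 3180 := noT1 53 1 60 (by norm_num) (by norm_num) (by norm_num)
  (by norm_num) (by norm_num) (by decide +kernel)

theorem nT708 : NoT.{u} 708 := noT1 59 1 12 (by norm_num) (by norm_num) (by norm_num)
  (by norm_num) (by norm_num) (by decide +kernel)

theorem nT3540 (hBS : S_BS.{u}) (hSTR : S_STR.{u}) : NoT.{u} 3540 :=
  noT2 hBS hSTR 5 708 (by norm_num) (by norm_num) (by norm_num) (by norm_num) nT708
  (by decide +kernel)

theorem nT3465 (hBS : S_BS.{u}) (hSTR : S_STR.{u}) : NoT.{u} 3465 :=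
  noT2 hBS hSTR 11 315 (by norm_num) (by norm_num) (by norm_num) (by norm_num) (nT315 hBS hSTR)
  (by decide +kernel)

theorem nT6930 (hBS : S_BS.{u}) (hSTR : S_STR.{u}) : NoT.{u} 6930 :=
  noT2 hBS hSTR 2 3465 (by norm_num) (by norm_num) (by norm_num) (by norm_num) (nT3465 hBS hSTR)
  (by decide +kernel)

/-- the excluded orders -/
theorem exc_false (hBS : S_BS.{u}) (hSTR : S_STR.{u}) {G : Type u} [Group G] [Finite G] (hT : TG G)
    (hc : cyc G < 2 ^ (npr G + 2)) (n : ℕ) (hG : Nat.card G = n) (hn : n ∈ excList) : False := by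
  have hnpr : ∀ t : ℕ, (Nat.card G).primeFactors.card = t → cyc G < 2 ^ (t + 2) := by
    intro t ht
    rw [npr, ht] at hc
    exact hc
  have b1 : ∀ (p r need : ℕ) (skip : Bool), p.Prime → ¬ p ∣ r → (skip = true → NoT.{u} r) →
      chkB p r need skip = true → Nat.card G = p * r → need ≤ cyc G := by
    intro p r need skip hp hpr hs hk hh
    exact bound_of_chk hBS hSTR hp hpr hs hk hT hh
  simp only [excList, List.mem_cons, List.not_mem_nil, or_false] at hn
  rcases hn with h | h | h | h | h | h | h | h | h | h | h | h | h | h | h | h | h | h | h | h | h | h | h | h | h | h | h | h | h | h | h | h | h | h | h | h | h | h | h | h | h | h | h | h | h | h | h | h | h | h | h | h | h | h <;> rw [h] at hG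
  · exact (noT12 hBS hSTR) G hG hT
  · exact nT18 G hG hT
  · exact noT20 G hG hT
  · exact noT24 hBS hSTR G hG hT
  · exact nT28 G hG hT
  · exact nT40 G hG hT
  · exact nT45 G hG hT
  · exact nT50 G hG hT
  · exact (nT56 hBS hSTR) G hG hT
  · exact nT63 G hG hT
  · have h1 := cyc60 hBS hSTR hT hG
    have h2 := hnpr 3 (by rw [hG]; simp [Nat.primeFactors])
    omega
  · exact nT84 G hG hT
  · exact (nT90 hBS hSTR) G hG hT
  · have h1 := b1 3 40 32 true (by norm_num) (by norm_num) (fun _ => nT40) (by decide +kernel)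
      (hG.trans (by norm_num))
    have h2 := hnpr 3 (by rw [hG]; simp [Nat.primeFactors])
    omega
  · exact nT126 G hG hT
  · exact (nT132 hBS hSTR) G hG hT
  · exact nT140 G hG hT
  · have h1 := b1 7 24 32 false (by norm_num) (by norm_num) (by simp) (by decide +kernel)
      (hG.trans (by norm_num))
    have h2 := hnpr 3 (by rw [hG]; simp [Nat.primeFactors])
    omega
  · have h1 := b1 5 36 32 false (by norm_num) (by norm_num) (by simp) (by decide +kernel)
      (hG.trans (by norm_num))
    have h2 := hnpr 3 (by rw [hG]; simp [Nat.primeFactors])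
    omega
  · exact nT198 G hG hT
  · exact nT220 G hG hT
  · exact nT234 G hG hT
  · have h1 := b1 5 48 32 false (by norm_num) (by norm_num) (by simp) (by decide +kernel)
      (hG.trans (by norm_num))
    have h2 := hnpr 3 (by rw [hG]; simp [Nat.primeFactors])
    omega
  · exact nT260 G hG hT
  · have h1 := b1 11 24 32 false (by norm_num) (by norm_num) (by simp) (by decide +kernel)
      (hG.trans (by norm_num))
    have h2 := hnpr 3 (by rw [hG]; simp [Nat.primeFactors])
    omega
  · exact (nT306 hBS hSTR) G hG hT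
  · exact nT308 G hG hT
  · exact nT312 G hG hT
  · exact nT340 G hG hT
  · exact nT364 G hG hT
  · exact (nT380 hBS hSTR) G hG hT
  · exact nT408 G hG hT
  · exact nT456 G hG hT
  · exact nT476 G hG hT
  · exact nT532 G hG hT
  · have h1 := b1 3 184 32 true (by norm_num) (by norm_num) (fun _ => nT184) (by decide +kernel)
      (hG.trans (by norm_num))
    have h2 := hnpr 3 (by rw [hG]; simp [Nat.primeFactors])
    omega
  · exact nT644 G hG hT
  · have h1 := b1 5 84 64 true (by norm_num) (by norm_num) (fun _ => nT84) (by decide +kernel)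
      (hG.trans (by norm_num))
    have h2 := hnpr 4 (by rw [hG]; simp [Nat.primeFactors])
    omega
  · exact (nT630 hBS hSTR) G hG hT
  · exact (nT1050 hBS hSTR) G hG hT
  · have h1 := b1 7 180 64 false (by norm_num) (by norm_num) (by simp) (by decide +kernel)
      (hG.trans (by norm_num))
    have h2 := hnpr 4 (by rw [hG]; simp [Nat.primeFactors])
    omega
  · exact nT1380 G hG hT
  · exact (nT1470 hBS hSTR) G hG hT
  · exact (nT1740 hBS hSTR) G hG hT
  · exact nT1860 G hG hT
  · exact nT2220 G hG hT
  · exact nT2460 G hG hT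
  · exact nT2580 G hG hT
  · exact nT2820 G hG hT
  · exact nT3180 G hG hT
  · exact (nT3540 hBS hSTR) G hG hT
  · have h1 := b1 11 420 128 false (by norm_num) (by norm_num) (by simp) (by decide +kernel)
      (hG.trans (by norm_num))
    have h2 := hnpr 5 (by rw [hG]; simp [Nat.primeFactors])
    omega
  · have h1 := b1 5 1092 128 false (by norm_num) (by norm_num) (by simp) (by decide +kernel)
      (hG.trans (by norm_num))
    have h2 := hnpr 5 (by rw [hG]; simp [Nat.primeFactors])
    omega
  · exact (nT6930 hBS hSTR) G hG hT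

end Pool.Agent.R858.CY
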