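import Mathlib

set_option autoImplicit false

/-!
Finite groups with few cyclic subgroups (problem MP_5fac9c_al): definitions and statements of tasks.
-/

universe u

namespace Pool.Agent.R858.CY

/-- the number of cyclic subgroups of a group -/
noncomputable def cyc (G : Type u) [Group G] : ℕ := Nat.card {H : Subgroup G // IsCyclic H}

/-- the number of primes dividing the order of a group -/
noncomputable def npr (G : Type u) [Group G] : ℕ := (Nat.card G).primeFactors.card

/-- the group has no nontrivial normal subgroup of prime power order -/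
def TG (G : Type u) [Group G] : Prop :=
  ∀ p : ℕ, p.Prime → ∀ N : Subgroup G, N.Normal → IsPGroup p N → N = ⊥

/-- task BS: the Baer-Suzuki theorem for one element -/
def S_BS : Prop := ∀ (G : Type u) [Group G] [Finite G] (p : ℕ) [Fact p.Prime] (x : G),
  (∀ g : G, IsPGroup p (Subgroup.closure {x, g * x * g⁻¹})) →
  IsPGroup p (Subgroup.normalClosure {x})

/-- task RED: the number of cyclic subgroups of a quotient -/
def S_RED : Prop := ∀ (G : Type u) [Group G] [Finite G] (N : Subgroup G) [N.Normal],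
  cyc (G ⧸ N) ≤ cyc G ∧
  ∀ p : ℕ, p.Prime → IsPGroup p N → N ≠ ⊥ → ¬ p ∣ Nat.card (G ⧸ N) → 2 * cyc (G ⧸ N) ≤ cyc G

/-- task STR: structure around a Sylow subgroup of prime order -/
def S_STR : Prop := ∀ (G : Type u) [Group G] [Finite G] (p r : ℕ), p.Prime → TG G →
  Nat.card G = p * r → ¬ p ∣ r →
  ∃ m e k : ℕ, r = m * e * k ∧ 1 < m ∧ m % p = 1 ∧ e ∣ p - 1 ∧
    (e = 1 → ∃ K : Subgroup G, K.Normal ∧ Nat.card K = r) ∧
    (∀ l : ℕ, l.Prime → l ∣ k → ∃ g : G, orderOf g = p * l) ∧
    Nat.card {g : G // p ∣ orderOf g} = m * (p - 1) * k ∧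
    (∀ g : G, p ∣ orderOf g → orderOf g ∣ p * k)

/-- the exceptional orders -/
def excList : List ℕ := [12, 18, 20, 24, 28, 40, 45, 50, 56, 63, 60, 84, 90, 120, 126, 132, 140, 168,
  180, 198, 220, 234, 240, 260, 264, 306, 308, 312, 340, 364, 380, 408, 456, 476, 532, 552, 644, 420,
  630, 1050, 1260, 1380, 1470, 1740, 1860, 2220, 2460, 2580, 2820, 3180, 3540, 4620, 5460, 6930]

/-- task NUM: the exceptional orders -/
def S_NUM : Prop := ∀ n : ℕ, 1 < n → 2 ≤ n.primeFactors.card → ¬ Squarefree n →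
  (∃ d : ℕ, d ∣ n ∧ d ^ 2 < n ∧ n ≤ (2 ^ (n.primeFactors.card + 2) - 1) * Nat.totient d) →
  n ∈ excList

end Pool.Agent.R858.CY
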