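import Mathlib
import Pool.Agent.R858.CY.Stm

set_option autoImplicit false
set_option maxRecDepth 100000

/-!
Task NUM of MP_5fac9c_al: the exceptional orders.
-/

namespace Pool.Agent.R858.CY

open Finset

namespace NumP

/-- the table of (d, totient d, number of primes dividing d) -/
def T : List (ℕ × ℕ × ℕ) :=
  [(1, 1, 0), (2, 1, 1), (3, 2, 1), (4, 2, 1), (5, 4, 1), (6, 2, 2), (7, 6, 1), (8, 4, 1), (9, 6,
   1), (10, 4, 2), (11, 10, 1), (12, 4, 2), (13, 12, 1), (14, 6, 2), (15, 8, 2), (16, 8, 1), (17,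
   16, 1), (18, 6, 2), (19, 18, 1), (20, 8, 2), (21, 12, 2), (22, 10, 2), (23, 22, 1), (24, 8, 2),
   (25, 20, 1), (26, 12, 2), (27, 18, 1), (28, 12, 2), (29, 28, 1), (30, 8, 3), (31, 30, 1), (32,
   16, 1), (33, 20, 2), (34, 16, 2), (35, 24, 2), (36, 12, 2), (37, 36, 1), (38, 18, 2), (39, 24,
   2), (40, 16, 2), (41, 40, 1), (42, 12, 3), (43, 42, 1), (44, 20, 2), (45, 24, 2), (46, 22, 2),
   (47, 46, 1), (48, 16, 2), (49, 42, 1), (50, 20, 2), (51, 32, 2), (52, 24, 2), (53, 52, 1), (54,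
   18, 2), (55, 40, 2), (56, 24, 2), (57, 36, 2), (58, 28, 2), (59, 58, 1), (60, 16, 3), (61, 60,
   1), (62, 30, 2), (63, 36, 2), (64, 32, 1), (65, 48, 2), (66, 20, 3), (67, 66, 1), (68, 32, 2),
   (69, 44, 2), (70, 24, 3), (71, 70, 1), (72, 24, 2), (73, 72, 1), (74, 36, 2), (75, 40, 2), (76,
   36, 2), (77, 60, 2), (78, 24, 3), (79, 78, 1), (80, 32, 2), (81, 54, 1), (82, 40, 2), (83, 82,
   1), (84, 24, 3), (85, 64, 2), (86, 42, 2), (87, 56, 2), (88, 40, 2), (89, 88, 1), (90, 24, 3),
   (91, 72, 2), (92, 44, 2), (93, 60, 2), (94, 46, 2), (95, 72, 2), (96, 32, 2), (97, 96, 1), (98,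
   42, 2), (99, 60, 2), (100, 40, 2), (101, 100, 1), (102, 32, 3), (103, 102, 1), (104, 48, 2),
   (105, 48, 3), (106, 52, 2), (107, 106, 1), (108, 36, 2), (109, 108, 1), (110, 40, 3), (111, 72,
   2), (112, 48, 2), (113, 112, 1), (114, 36, 3), (115, 88, 2), (116, 56, 2), (117, 72, 2), (118,
   58, 2), (119, 96, 2), (120, 32, 3), (121, 110, 1), (122, 60, 2), (123, 80, 2), (124, 60, 2),
   (125, 100, 1), (126, 36, 3), (127, 126, 1), (128, 64, 1), (129, 84, 2), (130, 48, 3), (131, 130,
   1), (132, 40, 3), (133, 108, 2), (134, 66, 2), (135, 72, 2), (136, 64, 2), (137, 136, 1), (138,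
   44, 3), (139, 138, 1), (140, 48, 3), (141, 92, 2), (142, 70, 2), (143, 120, 2), (144, 48, 2),
   (145, 112, 2), (146, 72, 2), (147, 84, 2), (148, 72, 2), (149, 148, 1), (150, 40, 3), (151, 150,
   1), (152, 72, 2), (153, 96, 2), (154, 60, 3), (155, 120, 2), (156, 48, 3), (157, 156, 1), (158,
   78, 2), (159, 104, 2), (160, 64, 2), (161, 132, 2), (162, 54, 2), (163, 162, 1), (164, 80, 2),
   (165, 80, 3), (166, 82, 2), (167, 166, 1), (168, 48, 3), (169, 156, 1), (170, 64, 3), (171, 108,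
   2), (172, 84, 2), (173, 172, 1), (174, 56, 3), (175, 120, 2), (176, 80, 2), (177, 116, 2), (178,
   88, 2), (179, 178, 1), (180, 48, 3), (181, 180, 1), (182, 72, 3), (183, 120, 2), (184, 88, 2),
   (185, 144, 2), (186, 60, 3), (187, 160, 2), (188, 92, 2), (189, 108, 2), (190, 72, 3), (191,
   190, 1), (192, 64, 2), (193, 192, 1), (194, 96, 2), (195, 96, 3), (196, 84, 2), (197, 196, 1),
   (198, 60, 3), (199, 198, 1), (200, 80, 2), (201, 132, 2), (202, 100, 2), (203, 168, 2), (204,
   64, 3), (205, 160, 2), (206, 102, 2), (207, 132, 2), (208, 96, 2), (209, 180, 2), (210, 48, 4),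
   (211, 210, 1), (212, 104, 2), (213, 140, 2), (214, 106, 2), (215, 168, 2), (216, 72, 2), (217,
   180, 2), (218, 108, 2), (219, 144, 2), (220, 80, 3), (221, 192, 2), (222, 72, 3), (223, 222, 1),
   (224, 96, 2), (225, 120, 2), (226, 112, 2), (227, 226, 1), (228, 72, 3), (229, 228, 1), (230,
   88, 3), (231, 120, 3), (232, 112, 2), (233, 232, 1), (234, 72, 3), (235, 184, 2), (236, 116, 2),
   (237, 156, 2), (238, 96, 3), (239, 238, 1), (240, 64, 3), (241, 240, 1), (242, 110, 2), (243,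
   162, 1), (244, 120, 2), (245, 168, 2), (246, 80, 3), (247, 216, 2), (248, 120, 2), (249, 164,
   2), (250, 100, 2), (251, 250, 1), (252, 72, 3), (253, 220, 2), (254, 126, 2), (255, 128, 3)]

/-- the primes below 256 -/
def P : List ℕ :=
  [2, 3, 5, 7, 11, 13, 17, 19, 23, 29, 31, 37, 41, 43, 47, 53, 59, 61, 67, 71, 73, 79, 83, 89, 97,
   101, 103, 107, 109, 113, 127, 131, 137, 139, 149, 151, 157, 163, 167, 173, 179, 181, 191, 193,
   197, 199, 211, 223, 227, 229, 233, 239, 241, 251]

/-- the test on one number -/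
def ex (f n : ℕ) : Bool :=
  Nat.blt (P.filter (fun p => Nat.beq (n % p) 0)).length 2 ||
  (Nat.blt ((2 ^ ((P.filter (fun p => Nat.beq (n % p) 0)).length + 2) - 1) * f) n ||
  (!(P.any (fun p => Nat.beq (n % (p * p)) 0)) || excList.any (fun m => Nat.beq n m)))

/-- the test on one pair -/
def pr (x y : ℕ × ℕ × ℕ) : Bool :=
  Nat.ble y.1 x.1 || (Nat.blt ((2 ^ (x.2.2 + y.2.2 + 2) - 1) * x.2.1) (x.1 * y.1) ||
    ex x.2.1 (x.1 * y.1))

theorem main_check : (T.all fun x => T.all fun y => pr x y) = true := by decide +kernel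

theorem range_check : ((List.range 256).all fun d =>
    Nat.beq d 0 || T.any (fun x => Nat.beq x.1 d)) = true := by decide +kernel

theorem tot_check : (T.all fun x => Nat.beq x.2.1 (((List.range x.1).filter
    (fun k => Nat.beq (Nat.gcd x.1 k) 1)).length)) = true := by decide +kernel

theorem om_check : (T.all fun x => Nat.beq x.2.2
    ((P.filter (fun p => Nat.beq (x.1 % p) 0)).length)) = true := by decide +kernel

theorem prime_check : ((List.range 256).all fun p => Nat.blt p 2 ||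
    (P.any (fun q => Nat.beq p q) ||
    [2, 3, 5, 7, 11, 13].any (fun q => Nat.blt q p && Nat.beq (p % q) 0))) = true := by
  decide +kernel


theorem prime_mem (p : ℕ) (hp : p.Prime) (h : p < 256) : p ∈ P := by
  have h1 := List.all_eq_true.1 prime_check p (List.mem_range.2 h)
  simp only [Bool.or_eq_true] at h1
  rcases h1 with h1 | h1 | h1
  · have := Nat.blt_eq ▸ h1
    have h2 := hp.two_le
    simp [Nat.blt] at h1
    omega
  · obtain ⟨q, hq, h2⟩ := List.any_eq_true.1 h1
    have := Nat.eq_of_beq_eq_true h2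
    rw [this]; exact hq
  · obtain ⟨q, hq, h2⟩ := List.any_eq_true.1 h1
    rw [Bool.and_eq_true] at h2
    obtain ⟨h3, h4⟩ := h2
    have h5 := Nat.eq_of_beq_eq_true h4
    have h6 : q ∣ p := Nat.dvd_of_mod_eq_zero h5
    have h7 : q < p := by simpa [Nat.blt] using h3
    rcases (Nat.dvd_prime hp).1 h6 with h8 | h8
    · subst h8; simp at hq
    · omega

theorem om_le (n : ℕ) (hn : ∀ p : ℕ, p.Prime → p ∣ n → p < 256) :
    n.primeFactors.card ≤ (P.filter (fun p => Nat.beq (n % p) 0)).length := by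
  have h1 : n.primeFactors ⊆ (P.filter (fun p => Nat.beq (n % p) 0)).toFinset := by
    intro p hp
    rw [Nat.mem_primeFactors] at hp
    rw [List.mem_toFinset, List.mem_filter]
    refine ⟨prime_mem p hp.1 (hn p hp.1 hp.2.1), ?_⟩
    rw [Nat.mod_eq_zero_of_dvd hp.2.1]; rfl
  exact (Finset.card_le_card h1).trans (List.toFinset_card_le _)

theorem tab (d : ℕ) (h0 : 0 < d) (h : d < 256) : ∃ x ∈ T, x.1 = d ∧
    Nat.totient d ≤ x.2.1 ∧ d.primeFactors.card ≤ x.2.2 := by
  have h1 := List.all_eq_true.1 range_check d (List.mem_range.2 h)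
  simp only [Bool.or_eq_true] at h1
  rcases h1 with h1 | h1
  · have := Nat.eq_of_beq_eq_true h1; omega
  · obtain ⟨x, hx, h2⟩ := List.any_eq_true.1 h1
    have h3 := Nat.eq_of_beq_eq_true h2
    refine ⟨x, hx, h3, ?_, ?_⟩
    · have h4 := Nat.eq_of_beq_eq_true (List.all_eq_true.1 tot_check x hx)
      rw [h4, h3, Nat.totient]
      have h5 : (Finset.range d).filter (fun k => d.Coprime k) =
          ((List.range d).filter (fun k => Nat.beq (Nat.gcd d k) 1)).toFinset := by
        ext k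
        simp only [Finset.mem_filter, Finset.mem_range, List.mem_toFinset, List.mem_filter,
          List.mem_range, Nat.Coprime]
        constructor
        · rintro ⟨a, b⟩; exact ⟨a, by rw [b]; rfl⟩
        · rintro ⟨a, b⟩; exact ⟨a, Nat.eq_of_beq_eq_true b⟩
      rw [h5]
      exact List.toFinset_card_le _
    · have h4 := Nat.eq_of_beq_eq_true (List.all_eq_true.1 om_check x hx)
      rw [h4, h3]
      exact om_le d fun p _ hpd => lt_of_le_of_lt (Nat.le_of_dvd h0 hpd) h

/-- the product of a finite set of primes -/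
theorem prod_bound (S : Finset ℕ) (hS : ∀ p ∈ S, p.Prime) :
    210 * 11 ^ S.card ≤ (∏ p ∈ S, p) * 11 ^ 4 := by
  set A : Finset ℕ := {2, 3, 5, 7} with hA
  have h1 : (∏ p ∈ S ∩ A, p) * ∏ p ∈ S \ A, p = ∏ p ∈ S, p := by
    rw [mul_comm]
    rw [← Finset.sdiff_inter_self_left S A]
    exact Finset.prod_sdiff Finset.inter_subset_left
  have h2 : (∏ p ∈ A ∩ S, p) * ∏ p ∈ A \ S, p = 210 := by
    have : ∏ p ∈ A, p = 210 := by rw [hA]; decide
    rw [mul_comm, ← this]
    rw [← Finset.sdiff_inter_self_left A S]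
    exact Finset.prod_sdiff Finset.inter_subset_left
  have h3 : 11 ^ (S \ A).card ≤ ∏ p ∈ S \ A, p := by
    apply Finset.pow_card_le_prod
    intro p hp
    rw [Finset.mem_sdiff] at hp
    have hpp := hS p hp.1
    have hpA := hp.2
    by_contra hlt
    push_neg at hlt
    rw [hA] at hpA
    have := hpp.two_le
    interval_cases p <;> first | (simp at hpA; done) | (revert hpp; norm_num)
  have h4 : ∏ p ∈ A \ S, p ≤ 11 ^ (A \ S).card := by
    apply Finset.prod_le_pow_card
    intro p hp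
    rw [Finset.mem_sdiff, hA] at hp
    have := hp.1
    simp only [Finset.mem_insert, Finset.mem_singleton] at this
    omega
  have h5 : (A \ S).card + (A ∩ S).card = 4 := by
    have : A.card = 4 := by rw [hA]; decide
    rw [← this]; exact Finset.card_sdiff_add_card_inter A S
  have h6 : (S \ A).card + (S ∩ A).card = S.card := Finset.card_sdiff_add_card_inter S A
  rw [Finset.inter_comm] at h2 h5
  calc 210 * 11 ^ S.card = (∏ p ∈ S ∩ A, p) * (∏ p ∈ A \ S, p) * 11 ^ S.card := by rw [h2]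
    _ ≤ (∏ p ∈ S ∩ A, p) * 11 ^ (A \ S).card * 11 ^ S.card := by gcongr
    _ = (∏ p ∈ S ∩ A, p) * 11 ^ (S \ A).card * 11 ^ 4 := by
        rw [← h5, ← h6]; ring
    _ ≤ (∏ p ∈ S ∩ A, p) * (∏ p ∈ S \ A, p) * 11 ^ 4 := by gcongr
    _ = (∏ p ∈ S, p) * 11 ^ 4 := by rw [h1]

theorem aux (t : ℕ) (h : 7 ≤ t) : (2 ^ (t + 2)) ^ 2 * 11 ^ 4 < 210 * 11 ^ t := by
  induction t, h using Nat.le_induction with
  | base => norm_num
  | succ k hk ih =>
    have : (2 ^ (k + 1 + 2)) ^ 2 * 11 ^ 4 = 4 * ((2 ^ (k + 2)) ^ 2 * 11 ^ 4) := by ring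
    rw [this]
    have h2 : 210 * 11 ^ (k + 1) = 11 * (210 * 11 ^ k) := by ring
    rw [h2]
    omega

end NumP

open NumP in
theorem num : S_NUM := by
  intro n hn h2 hsq ⟨d, hd, hdn, hle⟩
  obtain ⟨e, he⟩ := hd
  have hd0 : 0 < d := Nat.pos_of_ne_zero (by rintro rfl; simp at he; omega)
  have he0 : 0 < e := Nat.pos_of_ne_zero (by rintro rfl; simp at he; omega)
  have hde : d < e := by
    rw [he, sq] at hdn
    exact lt_of_mul_lt_mul_left hdn (Nat.zero_le d)
  have htd : Nat.totient d ≤ d := Nat.totient_le d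
  have he1 : e ≤ 2 ^ (n.primeFactors.card + 2) - 1 := by
    have h3 : e * d ≤ (2 ^ (n.primeFactors.card + 2) - 1) * d := by
      calc e * d = n := by rw [he]; ring
        _ ≤ _ := hle
        _ ≤ _ := Nat.mul_le_mul_left _ htd
    exact le_of_mul_le_mul_right h3 hd0
  have ht : n.primeFactors.card ≤ 6 := by
    by_contra hc
    push_neg at hc
    have h3 := aux _ (show 7 ≤ n.primeFactors.card by omega)
    have h4 := prod_bound n.primeFactors (fun p hp => Nat.prime_of_mem_primeFactors hp)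
    have h5 : ∏ p ∈ n.primeFactors, p ≤ n := Nat.le_of_dvd (by omega) (Nat.prod_primeFactors_dvd n)
    have h6 : n < (2 ^ (n.primeFactors.card + 2)) ^ 2 := by
      have : e < 2 ^ (n.primeFactors.card + 2) := by
        have : 0 < 2 ^ (n.primeFactors.card + 2) := by positivity
        omega
      calc n = d * e := he
        _ < 2 ^ (n.primeFactors.card + 2) * 2 ^ (n.primeFactors.card + 2) := by
          apply Nat.mul_lt_mul'' (by omega) this
        _ = _ := by ring
    have h7 : (∏ p ∈ n.primeFactors, p) * 11 ^ 4 < (2 ^ (n.primeFactors.card + 2)) ^ 2 * 11 ^ 4 :=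
      Nat.mul_lt_mul_of_pos_right (by omega) (by positivity)
    omega
  have he2 : e < 256 := by
    have : 2 ^ (n.primeFactors.card + 2) ≤ 2 ^ 8 := Nat.pow_le_pow_right (by norm_num) (by omega)
    omega
  have hpn : ∀ p : ℕ, p.Prime → p ∣ n → p < 256 := by
    intro p hp hpd
    rw [he] at hpd
    rcases (Nat.Prime.dvd_mul hp).1 hpd with h | h
    · exact lt_of_le_of_lt (Nat.le_of_dvd hd0 h) (by omega)
    · exact lt_of_le_of_lt (Nat.le_of_dvd he0 h) (by omega)
  obtain ⟨x, hx, hx1, hx2, hx3⟩ := tab d hd0 (by omega)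
  obtain ⟨y, hy, hy1, -, hy3⟩ := tab e he0 he2
  have hc := List.all_eq_true.1 (List.all_eq_true.1 main_check x hx) y hy
  unfold pr at hc
  rw [hx1, hy1, ← he] at hc
  simp only [Bool.or_eq_true] at hc
  have hcard : n.primeFactors.card ≤ x.2.2 + y.2.2 := by
    rw [he, Nat.primeFactors_mul (by omega) (by omega)]
    exact (Finset.card_union_le _ _).trans (by omega)
  rcases hc with hc | hc | hc
  · have := Nat.le_of_ble_eq_true hc
    omega
  · exfalso
    have h3 : (2 ^ (x.2.2 + y.2.2 + 2) - 1) * x.2.1 < n := by simpa [Nat.blt] using hc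
    have h4 : (2 ^ (n.primeFactors.card + 2) - 1) * Nat.totient d ≤
        (2 ^ (x.2.2 + y.2.2 + 2) - 1) * x.2.1 := by
      apply Nat.mul_le_mul _ hx2
      apply Nat.sub_le_sub_right
      exact Nat.pow_le_pow_right (by norm_num) (by omega)
    omega
  · unfold ex at hc
    simp only [Bool.or_eq_true] at hc
    have hom := om_le n hpn
    rcases hc with hc | hc | hc | hc
    · exfalso
      have : (P.filter (fun p => Nat.beq (n % p) 0)).length < 2 := by simpa [Nat.blt] using hc
      omega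
    · exfalso
      have h3 : (2 ^ ((P.filter (fun p => Nat.beq (n % p) 0)).length + 2) - 1) * x.2.1 < n := by
        simpa [Nat.blt] using hc
      have h4 : (2 ^ (n.primeFactors.card + 2) - 1) * Nat.totient d ≤
          (2 ^ ((P.filter (fun p => Nat.beq (n % p) 0)).length + 2) - 1) * x.2.1 := by
        apply Nat.mul_le_mul _ hx2
        apply Nat.sub_le_sub_right
        exact Nat.pow_le_pow_right (by norm_num) (by omega)
      omega
    · exfalso
      apply hsq
      rw [Nat.squarefree_iff_prime_squarefree]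
      intro p hp hpp
      have hpd : p ∣ n := (Dvd.intro _ rfl).trans hpp
      have h3 := prime_mem p hp (hpn p hp hpd)
      have h4 : P.any (fun p => Nat.beq (n % (p * p)) 0) = true := by
        rw [List.any_eq_true]
        exact ⟨p, h3, by rw [Nat.mod_eq_zero_of_dvd hpp]; rfl⟩
      rw [h4] at hc
      exact absurd hc (by decide)
    · obtain ⟨m, hm, h3⟩ := List.any_eq_true.1 hc
      rw [Nat.eq_of_beq_eq_true h3]
      exact hm

end Pool.Agent.R858.CY
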