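import Pool.Agent.R858.CY.Stm

set_option autoImplicit false

/-!
Task CY-RED (MP_5fac9c_al): the number of cyclic subgroups of a quotient.
-/

universe u

namespace Pool.Agent.R858.CY

theorem cyc_iff {G : Type u} [Group G] (H : Subgroup G) :
    IsCyclic H ↔ ∃ g : G, Subgroup.zpowers g = H := by
  constructor
  · intro h
    obtain ⟨g, hg⟩ := h.exists_generator
    refine ⟨g, le_antisymm ?_ ?_⟩
    · rw [Subgroup.zpowers_le]
      exact g.2
    · intro x hx
      obtain ⟨k, hk⟩ := hg ⟨x, hx⟩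
      refine ⟨k, ?_⟩
      have := congrArg Subtype.val hk
      simpa using this
  · rintro ⟨g, rfl⟩
    infer_instance

theorem map_mk_zpowers {G : Type u} [Group G] (N : Subgroup G) [N.Normal] (y : G) :
    (Subgroup.zpowers y).map (QuotientGroup.mk' N) = Subgroup.zpowers (y : G ⧸ N) :=
  MonoidHom.map_zpowers _ _

/-- the image of a cyclic subgroup -/
noncomputable def img {G : Type u} [Group G] (N : Subgroup G) [N.Normal]
    (H : {H : Subgroup G // IsCyclic H}) : {K : Subgroup (G ⧸ N) // IsCyclic K} :=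
  ⟨H.1.map (QuotientGroup.mk' N), by
    obtain ⟨g, hg⟩ := (cyc_iff H.1).1 H.2
    rw [cyc_iff]
    exact ⟨(g : G ⧸ N), by rw [← hg, map_mk_zpowers]⟩⟩

theorem two_lifts {G : Type u} [Group G] [Finite G] (N : Subgroup G) [N.Normal] (p : ℕ)
    (hp : p.Prime) (hN : IsPGroup p N) (hne : N ≠ ⊥) (hd : ¬ p ∣ Nat.card (G ⧸ N)) (y' : G ⧸ N) :
    ∃ a b : G, (a : G ⧸ N) = y' ∧ (b : G ⧸ N) = y' ∧ Subgroup.zpowers a ≠ Subgroup.zpowers b := by
  have : Fact p.Prime := ⟨hp⟩
  obtain ⟨s, hs⟩ := IsPGroup.iff_card.1 hN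
  have hcop : Nat.Coprime (Nat.card N) (Nat.card (G ⧸ N)) := by
    rw [hs]
    exact Nat.Coprime.pow_left s ((Nat.Prime.coprime_iff_not_dvd hp).2 hd)
  have hcop' := hcop
  obtain ⟨n0, hn0⟩ : ∃ n0, n0 = Nat.card N := ⟨_, rfl⟩
  obtain ⟨q, hq⟩ : ∃ q, q = Nat.card (G ⧸ N) := ⟨_, rfl⟩
  rw [← hn0, ← hq] at hcop
  obtain ⟨y0, hy0⟩ := QuotientGroup.mk_surjective y'
  have hqpow : ∀ z : G ⧸ N, z ^ q = 1 := fun z => by rw [hq]; exact pow_card_eq_one'
  have hnpow : ∀ z ∈ N, z ^ n0 = 1 := fun z hz => by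
    have h := pow_card_eq_one' (x := (⟨z, hz⟩ : N))
    rw [← hn0] at h
    have := congrArg Subtype.val h
    simpa using this
  -- a multiple of `n0` congruent to one modulo `q`
  obtain ⟨t, ht⟩ : ∃ t : ℕ, n0 * t ≡ 1 [MOD q] := by
    rcases Nat.lt_or_ge 1 q with h1 | h1
    · obtain ⟨t, _, ht⟩ := Nat.exists_mul_mod_eq_one_of_coprime hcop h1
      refine ⟨t, ?_⟩
      rw [Nat.ModEq, ht, Nat.mod_eq_of_lt h1]
    · have hq1 : q = 1 := by
        have : 0 < q := by rw [hq]; exact Nat.card_pos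
        omega
      exact ⟨0, by rw [hq1]; exact Nat.modEq_one⟩
  have hymk : ((y0 ^ (n0 * t) : G) : G ⧸ N) = y' := by
    rw [QuotientGroup.mk_pow, hy0]
    have h1 : y' ^ (n0 * t) = y' ^ 1 := by
      rw [pow_eq_pow_iff_modEq]
      exact ht.of_dvd (orderOf_dvd_of_pow_eq_one (hqpow y'))
    rw [h1, pow_one]
  have hyq : (y0 ^ (n0 * t)) ^ q = 1 := by
    have h1 : y0 ^ q ∈ N := by
      rw [← QuotientGroup.eq_one_iff, QuotientGroup.mk_pow]
      exact hqpow _
    calc (y0 ^ (n0 * t)) ^ q = ((y0 ^ q) ^ n0) ^ t := by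
          rw [← pow_mul, ← pow_mul, ← pow_mul]
          congr 1
          ring
      _ = 1 := by rw [hnpow _ h1, one_pow]
  obtain ⟨y, hy⟩ : ∃ y, y = y0 ^ (n0 * t) := ⟨_, rfl⟩
  rw [← hy] at hymk hyq
  have htriv : ∀ g ∈ Subgroup.zpowers y, g ∈ N → g = 1 := by
    intro g hg hgN
    have h1 : orderOf g ∣ q :=
      (orderOf_dvd_of_mem_zpowers hg).trans (orderOf_dvd_of_pow_eq_one hyq)
    have h2 : orderOf g ∣ n0 := orderOf_dvd_of_pow_eq_one (hnpow g hgN)
    have h3 : orderOf g ∣ 1 := by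
      have := Nat.dvd_gcd h2 h1
      rwa [hcop] at this
    exact orderOf_eq_one_iff.1 (Nat.dvd_one.1 h3)
  obtain ⟨n, hn1⟩ := Subgroup.ne_bot_iff_exists_ne_one.1 hne
  refine ⟨y, y * n, hymk, ?_, ?_⟩
  · rw [QuotientGroup.mk_mul, hymk, (QuotientGroup.eq_one_iff (n : G)).2 n.2, mul_one]
  · intro h
    have h1 : y * n ∈ Subgroup.zpowers y := by
      rw [h]
      exact Subgroup.mem_zpowers _
    have h2 : (n : G) ∈ Subgroup.zpowers y := by
      have := Subgroup.mul_mem _ (Subgroup.inv_mem _ (Subgroup.mem_zpowers y)) h1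
      simpa using this
    exact hn1 (Subtype.ext (htriv n h2 n.2))

theorem red : S_RED.{u} := by
  intro G _ _ N _
  refine ⟨?_, ?_⟩
  · refine Nat.card_le_card_of_surjective (img N) ?_
    rintro ⟨K, hK⟩
    obtain ⟨g', hg'⟩ := (cyc_iff K).1 hK
    obtain ⟨g, rfl⟩ := QuotientGroup.mk_surjective g'
    refine ⟨⟨Subgroup.zpowers g, (cyc_iff _).2 ⟨g, rfl⟩⟩, Subtype.ext ?_⟩
    simp only [img]
    rw [map_mk_zpowers, hg']
  · intro p hp hN hne hd
    have hex : ∀ K : {K : Subgroup (G ⧸ N) // IsCyclic K},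
        ∃ A B : {H : Subgroup G // IsCyclic H}, img N A = K ∧ img N B = K ∧ A ≠ B := by
      rintro ⟨K, hK⟩
      obtain ⟨g', hg'⟩ := (cyc_iff K).1 hK
      obtain ⟨a, b, ha, hb, hab⟩ := two_lifts N p hp hN hne hd g'
      refine ⟨⟨Subgroup.zpowers a, (cyc_iff _).2 ⟨a, rfl⟩⟩,
        ⟨Subgroup.zpowers b, (cyc_iff _).2 ⟨b, rfl⟩⟩, Subtype.ext ?_, Subtype.ext ?_, ?_⟩
      · simp only [img]
        rw [map_mk_zpowers, ha, hg']
      · simp only [img]
        rw [map_mk_zpowers, hb, hg']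
      · intro h
        exact hab (congrArg Subtype.val h)
    choose A B hA hB hAB using hex
    have hinj : Function.Injective
        (fun x : {K : Subgroup (G ⧸ N) // IsCyclic K} × Bool => if x.2 then A x.1 else B x.1) := by
      rintro ⟨K, b⟩ ⟨K', b'⟩ h
      have hK : K = K' := by
        have h1 := congrArg (img N) h
        cases b <;> cases b' <;> simpa [hA, hB] using h1
      subst hK
      cases b <;> cases b'
      · rfl
      · exact absurd (by simpa using h.symm) (hAB K)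
      · exact absurd (by simpa using h) (hAB K)
      · rfl
    have h1 := Nat.card_le_card_of_injective _ hinj
    rw [Nat.card_prod, Nat.card_eq_fintype_card (α := Bool), Fintype.card_bool, mul_comm] at h1
    exact h1

end Pool.Agent.R858.CY
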