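import Mathlib
import Pool.Agent.R858.CY.Stm

set_option autoImplicit false

/-!
CY-STR (helper584): structure and counting at a Sylow subgroup of prime order.
-/

universe u

namespace Pool.Agent.R858.CY

namespace Str

variable {G : Type u} [Group G] [Finite G] {p r : ℕ} [hp : Fact p.Prime]

lemma card_syl (hG : Nat.card G = p * r) (hpr : ¬ p ∣ r) (P : Sylow p G) :
    Nat.card (P : Subgroup G) = p := by
  have hr0 : r ≠ 0 := by rintro rfl; exact hpr (dvd_zero p)
  rw [Sylow.card_eq_multiplicity, hG, Nat.factorization_mul hp.out.ne_zero hr0]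
  simp only [Finsupp.add_apply]
  rw [Nat.factorization_eq_zero_of_not_dvd hpr, hp.out.factorization_self, add_zero, pow_one]

/-- conjugate centralizers have the same order -/
lemma card_cent (P Q : Sylow p G) :
    Nat.card (Subgroup.centralizer ((P : Subgroup G) : Set G)) =
      Nat.card (Subgroup.centralizer ((Q : Subgroup G) : Set G)) := by
  obtain ⟨g, hg⟩ := MulAction.exists_smul_eq G P Q
  have hmem : ∀ x : G, x ∈ (Q : Subgroup G) ↔ g⁻¹ * x * g ∈ (P : Subgroup G) := by
    intro x
    rw [← hg]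
    rw [Sylow.coe_subgroup_smul, Subgroup.mem_pointwise_smul_iff_inv_smul_mem]
    simp [MulAut.smul_def]
  refine Nat.card_congr ⟨fun c => ⟨g * c.1 * g⁻¹, ?_⟩, fun c => ⟨g⁻¹ * c.1 * g, ?_⟩, ?_, ?_⟩
  · rw [Subgroup.mem_centralizer_iff]
    intro x hx
    have h1 := (hmem x).1 hx
    have h2 := (Subgroup.mem_centralizer_iff.1 c.2) _ h1
    calc x * (g * c.1 * g⁻¹) = g * ((g⁻¹ * x * g) * c.1) * g⁻¹ := by group
      _ = g * (c.1 * (g⁻¹ * x * g)) * g⁻¹ := by rw [h2]
      _ = g * c.1 * g⁻¹ * x := by group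
  · rw [Subgroup.mem_centralizer_iff]
    intro x hx
    have h1 : g * x * g⁻¹ ∈ (Q : Subgroup G) := by
      rw [hmem]
      have h0 : g⁻¹ * (g * x * g⁻¹) * g = x := by group
      rw [h0]
      exact hx
    have h2 := (Subgroup.mem_centralizer_iff.1 c.2) _ h1
    calc x * (g⁻¹ * c.1 * g) = g⁻¹ * ((g * x * g⁻¹) * c.1) * g := by group
      _ = g⁻¹ * (c.1 * (g * x * g⁻¹)) * g := by rw [h2]
      _ = g⁻¹ * c.1 * g * x := by group
  · intro c
    apply Subtype.ext
    change g⁻¹ * (g * c.1 * g⁻¹) * g = c.1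
    group
  · intro c
    apply Subtype.ext
    change g * (g⁻¹ * c.1 * g) * g⁻¹ = c.1
    group

/-- a subgroup of order `p` in the centralizer of a Sylow subgroup (of order `p`) is equal to it -/
lemma zpowers_eq (hG : Nat.card G = p * r) (hpr : ¬ p ∣ r) (Q : Sylow p G) {x : G}
    (hx : orderOf x = p) (hc : x ∈ Subgroup.centralizer ((Q : Subgroup G) : Set G)) :
    Subgroup.zpowers x = (Q : Subgroup G) := by
  have h1 : IsPGroup p (Subgroup.zpowers x) :=
    IsPGroup.of_card (n := 1) (by rw [Nat.card_zpowers, hx, pow_one])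
  have h2 : Subgroup.zpowers x ≤ Subgroup.normalizer ((Q : Subgroup G) : Set G) := by
    refine le_trans ?_ (Subgroup.centralizer_le_normalizer _)
    rwa [Subgroup.zpowers_le]
  have h3 := IsPGroup.to_sup_of_normal_right' h1 Q.isPGroup' h2
  have h4 := Q.is_maximal' h3 le_sup_right
  have h5 : Subgroup.zpowers x ≤ (Q : Subgroup G) := by
    rw [← h4]; exact le_sup_left
  refine Subgroup.eq_of_le_of_card_ge h5 ?_
  rw [card_syl hG hpr, Nat.card_zpowers, hx]

/-- an element of order divisible by `p` centralizes a Sylow subgroup -/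
lemma exists_syl (hG : Nat.card G = p * r) (hpr : ¬ p ∣ r) {g : G} (hg : p ∣ orderOf g) :
    ∃ Q : Sylow p G, g ∈ Subgroup.centralizer ((Q : Subgroup G) : Set G) := by
  have ho : orderOf g ≠ 0 := (orderOf_pos g).ne'
  have hx : orderOf (g ^ (orderOf g / p)) = p := orderOf_pow_orderOf_div ho hg
  have h1 : IsPGroup p (Subgroup.zpowers (g ^ (orderOf g / p))) :=
    IsPGroup.of_card (n := 1) (by rw [Nat.card_zpowers, hx, pow_one])
  obtain ⟨Q, hQ⟩ := h1.exists_le_sylow
  have h2 : Subgroup.zpowers (g ^ (orderOf g / p)) = (Q : Subgroup G) := by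
    refine Subgroup.eq_of_le_of_card_ge hQ ?_
    rw [card_syl hG hpr, Nat.card_zpowers, hx]
  refine ⟨Q, ?_⟩
  rw [← h2, Subgroup.mem_centralizer_iff]
  intro y hy
  obtain ⟨n, rfl⟩ := hy
  change (g ^ (orderOf g / p)) ^ n * g = g * (g ^ (orderOf g / p)) ^ n
  exact ((Commute.refl g).pow_left _).zpow_left n

lemma syl_unique (hG : Nat.card G = p * r) (hpr : ¬ p ∣ r) {g : G} (hg : p ∣ orderOf g)
    {Q Q' : Sylow p G} (h : g ∈ Subgroup.centralizer ((Q : Subgroup G) : Set G))
    (h' : g ∈ Subgroup.centralizer ((Q' : Subgroup G) : Set G)) : Q = Q' := by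
  have ho : orderOf g ≠ 0 := (orderOf_pos g).ne'
  have hx : orderOf (g ^ (orderOf g / p)) = p := orderOf_pow_orderOf_div ho hg
  have h1 := zpowers_eq hG hpr Q hx (Subgroup.pow_mem _ h _)
  have h2 := zpowers_eq hG hpr Q' hx (Subgroup.pow_mem _ h' _)
  exact Sylow.ext (h1.symm.trans h2)

/-- the number of elements of order divisible by `p` in the centralizer -/
lemma count_cent (hG : Nat.card G = p * r) (hpr : ¬ p ∣ r) (Q : Sylow p G) {k : ℕ}
    (hk : Nat.card (Subgroup.centralizer ((Q : Subgroup G) : Set G)) = p * k)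
    (hpk : ¬ p ∣ k) :
    Nat.card {g : G // p ∣ orderOf g ∧ g ∈ Subgroup.centralizer ((Q : Subgroup G) : Set G)} =
      (p - 1) * k := by
  classical
  set C := Subgroup.centralizer ((Q : Subgroup G) : Set G) with hC
  have hcop : (Nat.card (Q : Subgroup G)).Coprime k := by
    rw [card_syl hG hpr]
    exact (Nat.Prime.coprime_iff_not_dvd hp.out).2 hpk
  have hQcomm : ∀ a ∈ (Q : Subgroup G), a ∈ C := by
    have hcyc : IsCyclic (Q : Subgroup G) := isCyclic_of_prime_card (card_syl hG hpr Q)
    have hcom : IsMulCommutative (Q : Subgroup G) := by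
      refine ⟨⟨fun a b => ?_⟩⟩
      exact (IsCyclic.commGroup (α := (Q : Subgroup G))).mul_comm a b
    exact fun a ha => Subgroup.le_centralizer (Q : Subgroup G) ha
  have hcomm : ∀ c ∈ C, ∀ q ∈ (Q : Subgroup G), Commute c q := by
    intro c hc q hq
    exact ((Subgroup.mem_centralizer_iff.1 hc) q hq).symm
  -- orders
  have hord : ∀ c ∈ C, orderOf c ∣ p * k := by
    intro c hc
    have := orderOf_dvd_natCard (⟨c, hc⟩ : C)
    rw [hk] at this
    simpa using this
  have hiff : ∀ c ∈ C, (c ^ k = 1 ↔ ¬ p ∣ orderOf c) := by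
    intro c hc
    constructor
    · intro h hd
      exact hpk (hd.trans (orderOf_dvd_of_pow_eq_one h))
    · intro h
      have h1 := hord c hc
      have h2 : (orderOf c).Coprime p := ((Nat.Prime.coprime_iff_not_dvd hp.out).2 h).symm
      exact orderOf_dvd_iff_pow_eq_one.1 (h2.dvd_of_dvd_mul_left h1)
  have hpowQ : ∀ c ∈ C, c ^ k ∈ (Q : Subgroup G) := by
    intro c hc
    by_cases h : c ^ k = 1
    · rw [h]; exact Subgroup.one_mem _
    · have h1 : orderOf (c ^ k) = p := by
        refine orderOf_eq_prime ?_ h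
        rw [← pow_mul, mul_comm]
        exact orderOf_dvd_iff_pow_eq_one.1 (hord c hc)
      have h2 := zpowers_eq hG hpr Q h1 (Subgroup.pow_mem _ hc _)
      rw [← h2]
      exact Subgroup.mem_zpowers _
  -- the bijection
  have hcard1 : Nat.card {c : C // c.1 ^ k = 1} * p = p * k := by
    have h1 : Nat.card ({c : C // c.1 ^ k = 1} × (Q : Subgroup G)) = Nat.card C := by
      refine Nat.card_congr (Equiv.ofBijective
        (fun a => (⟨a.1.1.1 * a.2.1, C.mul_mem a.1.1.2 (hQcomm _ a.2.2)⟩ : C)) ⟨?_, ?_⟩)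
      · rintro ⟨⟨⟨c, hc⟩, hck⟩, ⟨q, hq⟩⟩ ⟨⟨⟨c', hc'⟩, hck'⟩, ⟨q', hq'⟩⟩ h
        have h2 : c * q = c' * q' := congrArg Subtype.val h
        have h3 : q ^ k = q' ^ k := by
          have h4 := (hcomm c hc q hq).mul_pow k
          have h5 := (hcomm c' hc' q' hq').mul_pow k
          rw [hck, one_mul] at h4
          rw [hck', one_mul] at h5
          rw [← h4, ← h5, h2]
        have h6 : (⟨q, hq⟩ : (Q : Subgroup G)) = ⟨q', hq'⟩ := by
          apply (powCoprime hcop).injective
          apply Subtype.ext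
          simpa [powCoprime] using h3
        have h7 : q = q' := congrArg Subtype.val h6
        subst h7
        have h8 : c = c' := mul_right_cancel h2
        subst h8
        rfl
      · rintro ⟨c, hc⟩
        obtain ⟨q, hq⟩ := (powCoprime hcop).surjective ⟨c ^ k, hpowQ c hc⟩
        have hq' : q.1 ^ k = c ^ k := by
          have := congrArg Subtype.val hq
          simpa [powCoprime] using this
        refine ⟨⟨⟨⟨c * q.1⁻¹, C.mul_mem hc (C.inv_mem (hQcomm _ q.2))⟩, ?_⟩, q⟩, ?_⟩
        · change (c * q.1⁻¹) ^ k = 1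
          rw [((hcomm c hc q.1 q.2).inv_right).mul_pow, inv_pow, hq', mul_inv_cancel]
        · apply Subtype.ext
          change c * q.1⁻¹ * q.1 = c
          group
    rw [Nat.card_prod, card_syl hG hpr, hk] at h1
    exact h1
  have hcard2 : Nat.card {c : C // c.1 ^ k = 1} = k := by
    rw [mul_comm p k] at hcard1
    exact Nat.eq_of_mul_eq_mul_right hp.out.pos hcard1
  have hcard3 : Nat.card {c : C // ¬ c.1 ^ k = 1} + Nat.card {c : C // c.1 ^ k = 1} = p * k := by
    rw [← hk, add_comm]
    have := Nat.card_congr (Equiv.sumCompl (fun c : C => c.1 ^ k = 1))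
    rw [Nat.card_sum] at this
    exact this
  have hcard4 : Nat.card {g : G // p ∣ orderOf g ∧ g ∈ C} = Nat.card {c : C // ¬ c.1 ^ k = 1} := by
    refine Nat.card_congr ⟨fun g => ⟨⟨g.1, g.2.2⟩, fun h => (hiff g.1 g.2.2).1 h g.2.1⟩,
      fun c => ⟨c.1.1, ?_, c.1.2⟩, fun g => rfl, fun c => rfl⟩
    by_contra h
    exact c.2 ((hiff c.1.1 c.1.2).2 h)
  rw [hcard4, Nat.sub_mul, one_mul]
  omega

end Str

open Str in
theorem str : S_STR.{u} := by
  intro G _ _ p r hp hTG hG hpr
  have : Fact p.Prime := ⟨hp⟩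
  obtain ⟨P⟩ : Nonempty (Sylow p G) := inferInstance
  have hP := card_syl hG hpr P
  have hr0 : r ≠ 0 := by rintro rfl; exact hpr (dvd_zero p)
  set C := Subgroup.centralizer ((P : Subgroup G) : Set G) with hC
  set N := Subgroup.normalizer ((P : Subgroup G) : Set G) with hN
  have hcyc : IsCyclic (P : Subgroup G) := isCyclic_of_prime_card hP
  have hcom : IsMulCommutative (P : Subgroup G) := by
    refine ⟨⟨fun a b => ?_⟩⟩
    exact (IsCyclic.commGroup (α := (P : Subgroup G))).mul_comm a b
  have hPC : (P : Subgroup G) ≤ C := Subgroup.le_centralizer (P : Subgroup G)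
  have hCN : C ≤ N := Subgroup.centralizer_le_normalizer _
  -- numbers
  have hm : Nat.card (Sylow p G) = N.index := Sylow.card_eq_index_normalizer P
  set m := Nat.card (Sylow p G) with hmdef
  have hk : Nat.card C = p * (P : Subgroup G).relIndex C := by
    have h1 := Subgroup.relIndex_mul_index hPC
    have h2 := Subgroup.card_mul_index C
    have h3 := Subgroup.card_mul_index (P : Subgroup G)
    have h4 : C.index ≠ 0 := Subgroup.FiniteIndex.index_ne_zero
    rw [hP, ← h1] at h3
    refine Nat.eq_of_mul_eq_mul_right (Nat.pos_of_ne_zero h4) ?_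
    rw [h2, ← h3]
    ring
  set k := (P : Subgroup G).relIndex C with hkdef
  set e := C.relIndex N with hedef
  have hmek : r = m * e * k := by
    have h1 := Subgroup.relIndex_mul_index hCN
    have h2 := Subgroup.card_mul_index C
    rw [← h1, ← hm, hk, hG] at h2
    refine Nat.eq_of_mul_eq_mul_left hp.pos ?_
    rw [← h2]
    ring
  have hpk : ¬ p ∣ k := by
    intro h
    apply hpr
    rw [hmek]
    exact h.mul_left _
  have hmod : m % p = 1 := by
    have h1 := card_sylow_modEq_one p G
    have h2 : m % p = 1 % p := h1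
    rw [h2]
    exact Nat.mod_eq_of_lt hp.one_lt
  have hm1 : 1 < m := by
    rcases Nat.lt_or_ge 1 m with h | h
    · exact h
    · exfalso
      have hm0 : m ≠ 0 := by
        intro h0
        rw [h0] at hmod
        simp at hmod
      have hm1 : m = 1 := by omega
      have h1 : N.index = 1 := by rw [← hm, hm1]
      have h2 : N = ⊤ := Subgroup.index_eq_one.1 h1
      have h3 : (P : Subgroup G).Normal := Subgroup.normalizer_eq_top_iff.1 h2
      have h4 := hTG p hp (P : Subgroup G) h3 P.isPGroup'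
      rw [h4] at hP
      simp at hP
      exact hp.one_lt.ne hP
  refine ⟨m, e, k, hmek, hm1, hmod, ?_, ?_, ?_, ?_, ?_⟩
  · -- e divides p - 1
    have h1 : e = Nat.card (Subgroup.normalizerMonoidHom (P : Subgroup G)).range := by
      rw [← Subgroup.index_ker, Subgroup.normalizerMonoidHom_ker]
      rfl
    rw [h1]
    have h2 := Subgroup.card_subgroup_dvd_card
      (Subgroup.normalizerMonoidHom (P : Subgroup G)).range
    rw [IsCyclic.card_mulAut, hP, Nat.totient_prime hp] at h2
    exact h2
  · intro he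
    have h1 : N ≤ C := by
      have : C.relIndex N = 1 := he
      exact Subgroup.relIndex_eq_one.1 this
    refine ⟨(MonoidHom.transferSylow P h1).ker, inferInstance, ?_⟩
    have h2 := (MonoidHom.ker_transferSylow_isComplement' P h1).card_mul_card
    rw [hP, hG, mul_comm p r] at h2
    exact Nat.eq_of_mul_eq_mul_right hp.pos h2
  · intro l hl hlk
    have : Fact l.Prime := ⟨hl⟩
    obtain ⟨y, hy⟩ := exists_prime_orderOf_dvd_card' (G := C) l (by
      rw [hk]; exact hlk.mul_left _)
    obtain ⟨x, hx⟩ := exists_prime_orderOf_dvd_card' (G := (P : Subgroup G)) p (by rw [hP])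
    have hxy : Commute x.1 y.1 := (Subgroup.mem_centralizer_iff.1 y.2) x.1 x.2
    have hx' : orderOf x.1 = p := (Subgroup.orderOf_coe x).trans hx
    have hy' : orderOf y.1 = l := (Subgroup.orderOf_coe y).trans hy
    refine ⟨x.1 * y.1, ?_⟩
    rw [hxy.orderOf_mul_eq_mul_orderOf_of_coprime, hx', hy']
    rw [hx', hy']
    refine (Nat.coprime_primes hp hl).2 ?_
    rintro rfl
    exact hpk hlk
  · have h1 : Nat.card {g : G // p ∣ orderOf g} =
        Nat.card (Σ Q : Sylow p G, {g : G // p ∣ orderOf g ∧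
          g ∈ Subgroup.centralizer ((Q : Subgroup G) : Set G)}) := by
      refine (Nat.card_congr (Equiv.ofBijective
        (fun a => (⟨a.2.1, a.2.2.1⟩ : {g : G // p ∣ orderOf g})) ⟨?_, ?_⟩)).symm
      · rintro ⟨Q, g, hg1, hg2⟩ ⟨Q', g', hg1', hg2'⟩ h
        have h2 : g = g' := congrArg Subtype.val h
        subst h2
        have h3 := syl_unique hG hpr hg1 hg2 hg2'
        subst h3
        rfl
      · rintro ⟨g, hg⟩
        obtain ⟨Q, hQ⟩ := exists_syl hG hpr hg
        exact ⟨⟨Q, g, hg, hQ⟩, rfl⟩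
    rw [h1]
    have : Fintype (Sylow p G) := Fintype.ofFinite _
    rw [Nat.card_sigma]
    rw [Finset.sum_congr rfl (fun Q _ => count_cent hG hpr Q (k := k)
      (by rw [← hk]; exact card_cent Q P) hpk)]
    rw [Finset.sum_const, smul_eq_mul, Finset.card_univ, ← Nat.card_eq_fintype_card, mul_assoc]
  · intro g hg
    obtain ⟨Q, hQ⟩ := exists_syl hG hpr hg
    have h1 := orderOf_dvd_natCard
      (⟨g, hQ⟩ : Subgroup.centralizer ((Q : Subgroup G) : Set G))
    rw [card_cent Q P, hk] at h1
    simpa using h1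

end Pool.Agent.R858.CY
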