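import Pool.Agent.R858.CY.Exc
import Pool.Agent.R858.CY.BS
import Pool.Agent.R858.CY.Red
import Pool.Agent.R858.CY.Str
import Pool.Agent.R858.CY.Num

set_option autoImplicit false

/-!
Finite groups with few cyclic subgroups are solvable: the final induction.
-/

universe u

namespace Pool.Agent.R858.CY

open Subgroup

theorem pgroup_solvable {G : Type u} [Group G] [Finite G] {p : ℕ} (hp : p.Prime) (h : IsPGroup p G) :
    Group.IsSolvable G := by
  haveI : Fact p.Prime := ⟨hp⟩
  haveI : Group.IsNilpotent G := h.isNilpotent
  infer_instance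

theorem few (n : ℕ) : ∀ (G : Type u) [Group G] [Finite G], Nat.card G = n →
    cyc G < 2 ^ (npr G + 2) → Group.IsSolvable G := by
  induction n using Nat.strong_induction_on with
  | _ n ih =>
  intro G _ _ hG hc
  by_contra hns
  -- no normal subgroups of prime power order
  have hT : TG G := by
    intro p hp N hN hNp
    haveI : Fact p.Prime := ⟨hp⟩
    haveI := hN
    by_contra hne
    have hcard := Subgroup.card_eq_card_quotient_mul_card_subgroup N
    obtain ⟨k, hk⟩ := hNp.exists_card_eq
    have hk0 : k ≠ 0 := by
      rintro rfl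
      rw [pow_zero] at hk
      exact hne (Subgroup.eq_bot_of_card_eq _ hk)
    have hq0 : 0 < Nat.card (G ⧸ N) := Nat.card_pos
    have hlt : Nat.card (G ⧸ N) < n := by
      rw [← hG, hcard, hk]
      exact lt_mul_of_one_lt_right hq0 (Nat.one_lt_pow hk0 hp.one_lt)
    have hNs : Group.IsSolvable N := pgroup_solvable hp hNp
    have hQns : ¬ Group.IsSolvable (G ⧸ N) := by
      intro hQ
      exact hns ((Group.isSolvable_iff_subgroup_quotient N).2 ⟨hNs, hQ⟩)
    have hpf : (Nat.card G).primeFactors = (Nat.card (G ⧸ N)).primeFactors ∪ {p} := by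
      rw [hcard, hk, Nat.primeFactors_mul hq0.ne' (pow_ne_zero _ hp.ne_zero),
        Nat.primeFactors_prime_pow hk0 hp]
    by_cases hpd : p ∣ Nat.card (G ⧸ N)
    · have h1 : (Nat.card G).primeFactors = (Nat.card (G ⧸ N)).primeFactors := by
        rw [hpf]
        apply Finset.union_eq_left.2
        rw [Finset.singleton_subset_iff, Nat.mem_primeFactors]
        exact ⟨hp, hpd, hq0.ne'⟩
      apply hQns
      apply ih _ hlt (G ⧸ N) rfl
      rw [npr, ← h1]
      exact lt_of_le_of_lt (red G N).1 hc
    · have h1 : (Nat.card G).primeFactors.card = (Nat.card (G ⧸ N)).primeFactors.card + 1 := by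
        rw [hpf, Finset.card_union_of_disjoint, Finset.card_singleton]
        rw [Finset.disjoint_singleton_right, Nat.mem_primeFactors]
        exact fun h => hpd h.2.1
      apply hQns
      apply ih _ hlt (G ⧸ N) rfl
      have h2 := (red G N).2 p hp hNp hne hpd
      rw [npr, h1] at hc
      rw [npr]
      have h3 : 2 ^ ((Nat.card (G ⧸ N)).primeFactors.card + 1 + 2) =
          2 * 2 ^ ((Nat.card (G ⧸ N)).primeFactors.card + 2) := by ring
      rw [h3] at hc
      omega
  have hn1 : 1 < Nat.card G := by
    by_contra h
    have h1 : Nat.card G = 1 := by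
      have := Nat.card_pos (α := G)
      omega
    haveI := (Nat.card_eq_one_iff_unique.1 h1).1
    exact hns inferInstance
  have hord := order_sq_lt bs hT hn1
  -- not a prime power
  have ht2 : 2 ≤ (Nat.card G).primeFactors.card := by
    by_contra h
    have h1 : (Nat.card G).primeFactors.card = 1 := by
      have h2 : (Nat.card G).primeFactors.Nonempty := Nat.nonempty_primeFactors.2 hn1
      have := h2.card_pos
      omega
    obtain ⟨p, hp⟩ := Finset.card_eq_one.1 h1
    have hpp : p.Prime := Nat.prime_of_mem_primeFactors (by rw [hp]; exact Finset.mem_singleton_self p)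
    have h3 := Nat.eq_prime_pow_of_unique_prime_dvd (n := Nat.card G) (p := p) (by omega) (by
      intro d hd hdn
      have : d ∈ (Nat.card G).primeFactors := Nat.mem_primeFactors.2 ⟨hd, hdn, by omega⟩
      rw [hp, Finset.mem_singleton] at this
      exact this)
    exact hns (pgroup_solvable hpp (IsPGroup.of_card h3))
  -- not square free
  have hsq : ¬ Squarefree (Nat.card G) := by
    intro h
    haveI := IsZGroup.of_squarefree h
    exact hns inferInstance
  -- the numerical condition
  have hex : ∃ d : ℕ, d ∣ Nat.card G ∧ d ^ 2 < Nat.card G ∧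
      Nat.card G ≤ (2 ^ ((Nat.card G).primeFactors.card + 2) - 1) * Nat.totient d := by
    obtain ⟨g, hg⟩ := Finite.exists_max (fun g : G => Nat.totient (orderOf g))
    refine ⟨orderOf g, orderOf_dvd_natCard g, hord g, ?_⟩
    refine (cnt_all (G := G) _ hg).trans ?_
    apply Nat.mul_le_mul_right
    rw [npr] at hc
    omega
  exact exc_false bs str hT hc _ rfl (num _ hn1 ht2 hsq hex)

/-- a finite group with fewer than `2 ^ (π(G) + 2)` cyclic subgroups is solvable -/
theorem main (G : Type u) [Group G] [Finite G] (h : cyc G < 2 ^ (npr G + 2)) : Group.IsSolvable G :=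
  few _ G rfl h

end Pool.Agent.R858.CY
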