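import Pool.Agent.R858.CY.Zen
import Pool.Agent.R858.CY.Cnt

set_option autoImplicit false

/-!
Orders of groups without normal subgroups of prime power order: excluded orders.
-/

universe u

namespace Pool.Agent.R858.CY

open Subgroup
open scoped Pointwise

/-- there is no group of order `n` without normal subgroups of prime power order -/
def NoT (n : ℕ) : Prop := ∀ (G : Type u) [Group G] [Finite G], Nat.card G = n → TG G → False

/-- normal subgroups inherit the property -/
theorem TG.normal {G : Type u} [Group G] [Finite G] (hT : TG G) (K : Subgroup G) [hK : K.Normal] :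
    TG K := by
  intro p hp N hN hNp
  haveI : Fact p.Prime := ⟨hp⟩
  let O : Subgroup K := ⨅ P : Sylow p K, (P : Subgroup K)
  have hNO : N ≤ O := by
    refine le_iInf (fun Q => ?_)
    obtain ⟨P, hP⟩ := hNp.exists_le_sylow
    obtain ⟨h, hh⟩ := MulAction.exists_smul_eq K P Q
    intro x hx
    rw [← hh]
    have h1 : h⁻¹ * x * h ∈ N := by
      have := hN.conj_mem x hx h⁻¹
      simpa using this
    have h2 := hP h1
    rw [Sylow.coe_subgroup_smul]
    rw [Subgroup.mem_pointwise_smul_iff_inv_smul_mem]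
    simpa [MulAut.smul_def, mul_assoc] using h2
  have hOp : IsPGroup p O := by
    have P : Sylow p K := default
    exact P.isPGroup'.to_le (iInf_le _ P)
  have hOn : (O.map K.subtype).Normal := by
    refine ⟨fun x hx g => ?_⟩
    obtain ⟨y, hy, rfl⟩ := hx
    refine ⟨MulAut.conjNormal g y, ?_, ?_⟩
    · have hy' : y ∈ O := hy
      show MulAut.conjNormal g y ∈ O
      rw [Subgroup.mem_iInf] at hy' ⊢
      intro Q
      have h1 := hy' ((MulAut.conjNormal g : MulAut K)⁻¹ • Q)
      rw [Sylow.pointwise_smul_def] at h1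
      rw [Subgroup.mem_pointwise_smul_iff_inv_smul_mem] at h1
      simpa [MulAut.smul_def] using h1
    · simp
  have h1 := hT p hp _ hOn (hOp.map _)
  have h2 : O = ⊥ := by
    rw [Subgroup.map_eq_bot_iff] at h1
    rw [Subgroup.ker_subtype] at h1
    exact le_bot_iff.1 h1
  rw [h2] at hNO
  exact le_bot_iff.1 hNO

theorem noT_of_sylow {p a r : ℕ} (hp : p.Prime) (ha : 0 < a) (hpr : ¬ p ∣ r)
    (h : ∀ m : ℕ, m ∣ r → m % p = 1 → m = 1) : NoT.{u} (p ^ a * r) := by
  intro G _ _ hG hT
  haveI : Fact p.Prime := ⟨hp⟩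
  have P : Sylow p G := default
  have h1 : Nat.card (Sylow p G) % p = 1 := by
    have := card_sylow_modEq_one p G
    rw [Nat.ModEq, Nat.mod_eq_of_lt hp.one_lt] at this
    exact this
  have h2 : Nat.card (Sylow p G) ∣ r := by
    have h3 : Nat.card (Sylow p G) ∣ p ^ a * r := by
      rw [← hG]
      exact (Sylow.card_dvd_index P).trans (Subgroup.index_dvd_card _)
    refine Nat.Coprime.dvd_of_dvd_mul_left ?_ h3
    refine Nat.Coprime.pow_right a ?_
    rw [Nat.coprime_comm, hp.coprime_iff_not_dvd]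
    intro h4
    obtain ⟨c, hc⟩ := h4
    rw [hc, Nat.mul_mod_right] at h1
    omega
  have h3 := h _ h2 h1
  haveI : Subsingleton (Sylow p G) := (Nat.card_eq_one_iff_unique.1 h3).1
  have h4 : (P : Subgroup G).Normal := Sylow.normal_of_subsingleton P
  have h5 := hT p hp _ h4 P.isPGroup'
  refine P.ne_bot_of_dvd_card ?_ h5
  rw [hG]
  exact (dvd_pow_self p ha.ne').mul_right r

theorem noT_of_str (hBS : S_BS.{u}) (hSTR : S_STR.{u}) {p r : ℕ} (hp : p.Prime) (hpr : ¬ p ∣ r)
    (hr : NoT.{u} r) (h : ∀ m e k : ℕ, r = m * e * k → 1 < m → m % p = 1 → e ∣ p - 1 →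
      (∀ l : ℕ, l.Prime → l ∣ k → (p * l) ^ 2 < p * r) → e = 1) : NoT.{u} (p * r) := by
  intro G _ _ hG hT
  have h0 : 1 < Nat.card G := by
    rw [hG]
    rcases Nat.eq_zero_or_pos r with h | h
    · exact absurd (by rw [h]; exact dvd_zero p) hpr
    · calc 1 < p := hp.one_lt
        _ ≤ p * r := Nat.le_mul_of_pos_right _ h
  obtain ⟨m, e, k, h1, h2, h3, h4, h5, h6, h7, h8⟩ := hSTR G p r hp hT hG hpr
  have he : e = 1 := by
    refine h m e k h1 h2 h3 h4 (fun l hl hlk => ?_)
    obtain ⟨g, hg⟩ := h6 l hl hlk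
    have := order_sq_lt hBS hT h0 g
    rwa [hg, hG] at this
  obtain ⟨K, hK, hKr⟩ := h5 he
  exact hr K hKr (hT.normal K)

end Pool.Agent.R858.CY
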