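import Pool.Agent.R858.CY.Chk

set_option autoImplicit false

/-!
Special orders.
-/

universe u

namespace Pool.Agent.R858.CY

open Subgroup

/-- check for the Sylow congruences -/
def chk1 (p r : ℕ) : Bool := (divs r).all (fun m => (m % p != 1) || (m == 1))

theorem noT1 {n : ℕ} (p a r : ℕ) (hn : n = p ^ a * r) (hp : p.Prime) (ha : 0 < a) (hr : 0 < r)
    (hpr : ¬ p ∣ r) (h : chk1 p r = true) : NoT.{u} n := by
  rw [hn]
  refine noT_of_sylow hp ha hpr (fun m hm hm1 => ?_)
  rw [chk1, List.all_eq_true] at h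
  have h2 := h m (mem_divs hr hm)
  simpa [hm1] using h2

theorem noT2 (hBS : S_BS.{u}) (hSTR : S_STR.{u}) {n : ℕ} (p r : ℕ) (hn : n = p * r) (hp : p.Prime)
    (hr : 0 < r) (hpr : ¬ p ∣ r) (hN : NoT.{u} r) (h : chk2 p r = true) : NoT.{u} n := by
  rw [hn]
  exact noT_of_str hBS hSTR hp hpr hN (chk2_spec hr h)

theorem noT4 : NoT.{u} 4 := noT1 2 2 1 (by norm_num) (by norm_num) (by norm_num) (by norm_num) (by norm_num) (by decide +kernel)
theorem noT8 : NoT.{u} 8 := noT1 2 3 1 (by norm_num) (by norm_num) (by norm_num) (by norm_num) (by norm_num) (by decide +kernel)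
theorem noT12 (hBS : S_BS.{u}) (hSTR : S_STR.{u}) : NoT.{u} 12 :=
  noT2 hBS hSTR 3 4 (by norm_num) (by norm_num) (by norm_num) (by norm_num) noT4 (by decide +kernel)
theorem noT15 : NoT.{u} 15 := noT1 3 1 5 (by norm_num) (by norm_num) (by norm_num) (by norm_num) (by norm_num) (by decide +kernel)
theorem noT20 : NoT.{u} 20 := noT1 5 1 4 (by norm_num) (by norm_num) (by norm_num) (by norm_num) (by norm_num) (by decide +kernel)

theorem card_sylow_mod {G : Type u} [Group G] [Finite G] {p : ℕ} (hp : p.Prime) :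
    Nat.card (Sylow p G) % p = 1 := by
  haveI : Fact p.Prime := ⟨hp⟩
  have := card_sylow_modEq_one p G
  rw [Nat.ModEq, Nat.mod_eq_of_lt hp.one_lt] at this
  exact this

theorem noT24 (hBS : S_BS.{u}) (hSTR : S_STR.{u}) : NoT.{u} 24 := by
  intro G _ _ hG hT
  classical
  haveI : Fact (Nat.Prime 2) := ⟨Nat.prime_two⟩
  have P : Sylow 2 G := default
  have h1 : Nat.card (Sylow 2 G) % 2 = 1 := card_sylow_mod Nat.prime_two
  have h2 : Nat.card (Sylow 2 G) ∣ 3 := by
    have h3 : Nat.card (Sylow 2 G) ∣ 2 ^ 3 * 3 := by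
      have h4 : (2 : ℕ) ^ 3 * 3 = Nat.card G := by rw [hG]; norm_num
      rw [h4]
      exact (Sylow.card_dvd_index P).trans (Subgroup.index_dvd_card _)
    refine Nat.Coprime.dvd_of_dvd_mul_left ?_ h3
    refine Nat.Coprime.pow_right 3 ?_
    rw [Nat.coprime_comm, Nat.prime_two.coprime_iff_not_dvd]
    omega
  have h3 : Nat.card (Sylow 2 G) ≠ 1 := by
    intro h
    haveI : Subsingleton (Sylow 2 G) := (Nat.card_eq_one_iff_unique.1 h).1
    have h4 : (P : Subgroup G).Normal := Sylow.normal_of_subsingleton P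
    have h5 := hT 2 Nat.prime_two _ h4 P.isPGroup'
    refine P.ne_bot_of_dvd_card ?_ h5
    rw [hG]
    norm_num
  have h4 : Nat.card (Sylow 2 G) = 3 := by
    rcases (Nat.dvd_prime Nat.prime_three).1 h2 with h | h
    · exact absurd h h3
    · exact h
  let f : G →* Equiv.Perm (Sylow 2 G) := MulAction.toPermHom G (Sylow 2 G)
  have h5 : Nat.card f.range ∣ 6 := by
    have h6 : Nat.card (Equiv.Perm (Sylow 2 G)) = 6 := by
      haveI := Fintype.ofFinite (Sylow 2 G)
      rw [Nat.card_eq_fintype_card, Fintype.card_perm, ← Nat.card_eq_fintype_card, h4]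
      rfl
    rw [← h6]
    exact Subgroup.card_subgroup_dvd_card _
  have h6 : Nat.card f.ker * Nat.card f.range = 24 := by
    rw [← hG, ← Subgroup.card_mul_index f.ker, Subgroup.index_ker]
  have hle : Nat.card f.range ≤ 6 := Nat.le_of_dvd (by norm_num) h5
  have hT' : TG f.ker := hT.normal f.ker
  have hcases : Nat.card f.range = 1 ∨ Nat.card f.range = 2 ∨ Nat.card f.range = 3 ∨
      Nat.card f.range = 6 := by
    have : ∀ n ≤ 6, n ∣ 6 → n = 1 ∨ n = 2 ∨ n = 3 ∨ n = 6 := by decide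
    exact this _ hle h5
  rcases hcases with h | h | h | h
  · -- trivial action
    rw [h, mul_one] at h6
    have h7 : f.ker = ⊤ := Subgroup.eq_top_of_card_eq _ (by rw [h6, hG])
    have h8 : ∀ Q : Sylow 2 G, Q = P := by
      intro Q
      obtain ⟨g, hg⟩ := MulAction.exists_smul_eq G P Q
      have h9 : g ∈ f.ker := by rw [h7]; exact Subgroup.mem_top g
      rw [MonoidHom.mem_ker] at h9
      have h10 := congrArg (fun σ : Equiv.Perm (Sylow 2 G) => σ P) h9
      have h11 : g • P = P := h10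
      rw [← hg, h11]
    have h9 : Nat.card (Sylow 2 G) = 1 := by
      haveI : Subsingleton (Sylow 2 G) := ⟨fun a b => by rw [h8 a, h8 b]⟩
      haveI : Nonempty (Sylow 2 G) := ⟨P⟩
      exact Nat.card_eq_one_iff_unique.2 ⟨inferInstance, inferInstance⟩
    exact h3 h9
  · exact noT12 hBS hSTR f.ker (by rw [h] at h6; omega) hT'
  · exact noT8 f.ker (by rw [h] at h6; omega) hT'
  · exact noT4 f.ker (by rw [h] at h6; omega) hT'

theorem cycQ_split {G : Type u} [Group G] [Finite G] (R Q : ℕ → Prop) :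
    cycQ G R = cycQ G (fun n => R n ∧ Q n) + cycQ G (fun n => R n ∧ ¬ Q n) := by
  classical
  rw [cycQ, cycQ, cycQ, ← Nat.card_sum]
  refine Nat.card_congr ⟨fun H => if h : Q (Nat.card H.1) then Sum.inl ⟨H.1, H.2.1, H.2.2, h⟩
    else Sum.inr ⟨H.1, H.2.1, H.2.2, h⟩,
    fun s => s.elim (fun H => ⟨H.1, H.2.1, H.2.2.1⟩) (fun H => ⟨H.1, H.2.1, H.2.2.1⟩), ?_, ?_⟩
  · intro H
    by_cases h : Q (Nat.card H.1) <;> simp [h]
  · rintro (H | H)
    · have h := H.2.2.2
      simp [h]
    · have h := H.2.2.2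
      simp [h]

theorem cardQ_split {G : Type u} [Group G] [Finite G] (R Q : ℕ → Prop) :
    Nat.card {g : G // R (orderOf g)} = Nat.card {g : G // R (orderOf g) ∧ Q (orderOf g)} +
      Nat.card {g : G // R (orderOf g) ∧ ¬ Q (orderOf g)} := by
  classical
  rw [← Nat.card_sum]
  refine Nat.card_congr ⟨fun g => if h : Q (orderOf g.1) then Sum.inl ⟨g.1, g.2, h⟩
    else Sum.inr ⟨g.1, g.2, h⟩,
    fun s => s.elim (fun g => ⟨g.1, g.2.1⟩) (fun g => ⟨g.1, g.2.1⟩), ?_, ?_⟩
  · intro g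
    by_cases h : Q (orderOf g.1) <;> simp [h]
  · rintro (g | g)
    · have h := g.2.2
      simp [h]
    · have h := g.2.2
      simp [h]

/-- a group of order 60 without normal subgroups of prime power order has no element of order 4 -/
theorem no_four {G : Type u} [Group G] [Finite G] (hT : TG G) (hG : Nat.card G = 60) (g : G) :
    orderOf g ≠ 4 := by
  intro hg
  haveI : Fact (Nat.Prime 2) := ⟨Nat.prime_two⟩
  have hmin : (Nat.card G).minFac = 2 := by rw [hG]; norm_num
  have hzp : IsPGroup 2 (zpowers g) := by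
    apply IsPGroup.of_card (n := 2)
    rw [Nat.card_zpowers, hg]
    norm_num
  obtain ⟨P, hP⟩ := hzp.exists_le_sylow
  have hcP : Nat.card (P : Subgroup G) = 4 := by
    rw [P.card_eq_multiplicity, hG]
    have : Nat.factorization 60 2 = 2 := by
      have h : (60 : ℕ) = 2 ^ 2 * 15 := by norm_num
      rw [h, Nat.factorization_mul (by norm_num) (by norm_num)]
      rw [Nat.Prime.factorization_pow Nat.prime_two]
      simp [Nat.factorization_eq_zero_of_not_dvd]
    rw [this]
    norm_num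
  have heq : zpowers g = (P : Subgroup G) :=
    Subgroup.eq_of_le_of_card_ge hP (by rw [hcP, Nat.card_zpowers, hg])
  have hcyc : IsCyclic (P : Subgroup G) := by
    rw [← heq]
    infer_instance
  have h1 := IsCyclic.isComplement' hmin hcyc
  have h2 := h1.card_mul
  rw [hcP, hG] at h2
  have h3 : Nat.card (MonoidHom.transferSylow P (IsCyclic.normalizer_le_centralizer hmin hcyc)).ker = 15 := by
    omega
  exact noT15 _ h3 (hT.normal _)

theorem dvd60 : ∀ n ≤ 60, n ∣ 60 → ¬ 5 ∣ n → ¬ 3 ∣ n → n = 1 ∨ n = 2 ∨ n = 4 := by decide +kernel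

theorem cyc60 (hBS : S_BS.{u}) (hSTR : S_STR.{u}) {G : Type u} [Group G] [Finite G] (hT : TG G)
    (hG : Nat.card G = 60) : 32 ≤ cyc G := by
  have hord := order_sq_lt hBS hT (by rw [hG]; norm_num)
  rw [hG] at hord
  -- the prime 5
  obtain ⟨m, e, k, h1, h2, h3, h4, h5, h6, h7, h8⟩ :=
    hSTR G 5 12 Nat.prime_five hT (by rw [hG]) (by norm_num)
  have hk5 : m = 6 ∧ k = 1 := by
    have hm : m ∣ 12 := ⟨e * k, by rw [h1, mul_assoc]⟩
    have hm6 : m = 6 := by
      have : ∀ m ≤ 12, m ∣ 12 → 1 < m → m % 5 = 1 → m = 6 := by decide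
      exact this m (Nat.le_of_dvd (by norm_num) hm) hm h2 h3
    subst hm6
    refine ⟨rfl, ?_⟩
    have hek : e * k = 2 := by
      have : 6 * (e * k) = 12 := by rw [← mul_assoc]; exact h1.symm
      omega
    have hk2 : k ∣ 2 := ⟨e, by rw [← hek, mul_comm]⟩
    rcases (Nat.dvd_prime Nat.prime_two).1 hk2 with h | h
    · exact h
    · obtain ⟨g, hg⟩ := h6 2 Nat.prime_two (by rw [h])
      have := hord g
      rw [hg] at this
      omega
  obtain ⟨hm5, hk5⟩ := hk5
  subst hm5
  subst hk5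
  -- the prime 3
  obtain ⟨m', e', k', h1', h2', h3', h4', h5', h6', h7', h8'⟩ :=
    hSTR G 3 20 Nat.prime_three hT (by rw [hG]) (by norm_num)
  have hk3 : m' = 10 ∧ k' = 1 := by
    have hm : m' ∣ 20 := ⟨e' * k', by rw [h1', mul_assoc]⟩
    have hm4 : m' = 4 ∨ m' = 10 := by
      have : ∀ m ≤ 20, m ∣ 20 → 1 < m → m % 3 = 1 → m = 4 ∨ m = 10 := by decide
      exact this m' (Nat.le_of_dvd (by norm_num) hm) hm h2' h3'
    have he2 : e' = 1 ∨ e' = 2 := (Nat.dvd_prime Nat.prime_two).1 h4'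
    have he1 : e' ≠ 1 := by
      intro h
      obtain ⟨K, hK, hK2⟩ := h5' h
      exact noT20 K hK2 (hT.normal K)
    have he : e' = 2 := by
      rcases he2 with h | h
      · exact absurd h he1
      · exact h
    subst he
    rcases hm4 with h | h
    · subst h
      omega
    · subst h
      refine ⟨rfl, ?_⟩
      omega
  obtain ⟨hm3, hk3⟩ := hk3
  subst hm3
  subst hk3
  have hno15 : ∀ g : G, 5 ∣ orderOf g → 3 ∣ orderOf g → False := by
    intro g hg5 hg3
    have h15 : 15 ∣ orderOf g := Nat.Coprime.mul_dvd_of_dvd_of_dvd (by norm_num) hg5 hg3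
    have h16 : 15 ≤ orderOf g := Nat.le_of_dvd (orderOf_pos g) h15
    have := hord g
    nlinarith
  have hc5 : Nat.card {g : G // 5 ∣ orderOf g} ≤ cycQ G (fun n => 5 ∣ n) * 4 := by
    apply cnt_le
    intro g hg
    have h := h8 g hg
    have h' : orderOf g = 5 := Nat.dvd_antisymm (by simpa using h) hg
    rw [h']
    decide
  have hc3 : Nat.card {g : G // ¬ 5 ∣ orderOf g ∧ 3 ∣ orderOf g} ≤
      cycQ G (fun n => ¬ 5 ∣ n ∧ 3 ∣ n) * 2 := by
    apply cnt_le (fun n => ¬ 5 ∣ n ∧ 3 ∣ n)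
    intro g hg
    have h := h8' g hg.2
    have h' : orderOf g = 3 := Nat.dvd_antisymm (by simpa using h) hg.2
    rw [h']
    decide
  have hc0 : Nat.card {g : G // ¬ 5 ∣ orderOf g ∧ ¬ 3 ∣ orderOf g} ≤
      cycQ G (fun n => ¬ 5 ∣ n ∧ ¬ 3 ∣ n) * 1 := by
    apply cnt_le (fun n => ¬ 5 ∣ n ∧ ¬ 3 ∣ n)
    intro g hg
    have hd : orderOf g ∣ 60 := by rw [← hG]; exact orderOf_dvd_natCard g
    rcases dvd60 _ (Nat.le_of_dvd (by norm_num) hd) hd hg.1 hg.2 with h | h | h
    · rw [h]; decide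
    · rw [h]; decide
    · exact absurd h (no_four hT hG g)
  have e1 := card_split (G := G) (fun n => 5 ∣ n)
  have e2 := cardQ_split (G := G) (fun n => ¬ 5 ∣ n) (fun n => 3 ∣ n)
  have e3 : Nat.card {g : G // ¬ 5 ∣ orderOf g ∧ 3 ∣ orderOf g} = Nat.card {g : G // 3 ∣ orderOf g} := by
    refine Nat.card_congr (Equiv.subtypeEquivRight (fun g => ?_))
    constructor
    · exact fun h => h.2
    · exact fun h => ⟨fun h5 => hno15 g h5 h, h⟩
  have e4 := cyc_split (G := G) (fun n => 5 ∣ n)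
  have e5 := cycQ_split (G := G) (fun n => ¬ 5 ∣ n) (fun n => 3 ∣ n)
  rw [h7] at e1 hc5
  rw [e3, h7'] at e2 hc3
  rw [hG] at e1
  omega

end Pool.Agent.R858.CY
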