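import Pool.Agent.R858.CY.Stm

set_option autoImplicit false

/-!
Zenkov's theorem (intersections of conjugates of abelian subgroups), assuming the Baer-Suzuki theorem,
and the bound on the orders of elements of a group without normal subgroups of prime power order.
-/

universe u

namespace Pool.Agent.R858.CY

open Subgroup

section cj

variable {G : Type u} [Group G]

/-- conjugate subgroup -/
def cj (g : G) (B : Subgroup G) : Subgroup G := B.comap (MulAut.conj g⁻¹).toMonoidHom

theorem mem_cj {g y : G} {B : Subgroup G} : y ∈ cj g B ↔ g⁻¹ * y * g ∈ B := by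
  simp [cj, Subgroup.mem_comap]

theorem cj_mul (g h : G) (B : Subgroup G) : cj g (cj h B) = cj (g * h) B := by
  ext y
  simp only [mem_cj]
  have : h⁻¹ * (g⁻¹ * y * g) * h = (g * h)⁻¹ * y * (g * h) := by group
  rw [this]

theorem cj_inf (g : G) (A B : Subgroup G) : cj g (A ⊓ B) = cj g A ⊓ cj g B := by
  ext y
  simp only [mem_cj, Subgroup.mem_inf]

theorem cj_one (B : Subgroup G) : cj 1 B = B := by
  ext y
  simp [mem_cj]

theorem card_cj (g : G) (B : Subgroup G) : Nat.card (cj g B) = Nat.card B := by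
  refine Nat.card_congr ⟨fun y => ⟨g⁻¹ * y.1 * g, mem_cj.1 y.2⟩,
    fun y => ⟨g * y.1 * g⁻¹, mem_cj.2 (by simpa [mul_assoc] using y.2)⟩, fun y => ?_, fun y => ?_⟩
  · apply Subtype.ext
    simp [mul_assoc]
  · apply Subtype.ext
    simp [mul_assoc]

theorem conj_mem_cj {g y : G} {B : Subgroup G} (hy : y ∈ B) : g * y * g⁻¹ ∈ cj g B := by
  rw [mem_cj]
  have : g⁻¹ * (g * y * g⁻¹) * g = y := by group
  rwa [this]

end cj

/-- the elements of a subgroup commute -/
def Cm {G : Type u} [Group G] (A : Subgroup G) : Prop := ∀ a ∈ A, ∀ b ∈ A, a * b = b * a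

theorem Cm.cj {G : Type u} [Group G] {A : Subgroup G} (hA : Cm A) (g : G) : Cm (cj g A) := by
  intro a ha b hb
  have h := hA _ (mem_cj.1 ha) _ (mem_cj.1 hb)
  have h2 : g⁻¹ * (a * b) * g = g⁻¹ * (b * a) * g := by
    calc g⁻¹ * (a * b) * g = (g⁻¹ * a * g) * (g⁻¹ * b * g) := by group
      _ = (g⁻¹ * b * g) * (g⁻¹ * a * g) := h
      _ = g⁻¹ * (b * a) * g := by group
  have h3 := congrArg (fun z => g * z * g⁻¹) h2
  simpa [mul_assoc] using h3

theorem Cm.sub {G : Type u} [Group G] {A : Subgroup G} (hA : Cm A) (K : Subgroup G) :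
    Cm (A.subgroupOf K) := by
  intro a ha b hb
  apply Subtype.ext
  exact hA _ (Subgroup.mem_subgroupOf.1 ha) _ (Subgroup.mem_subgroupOf.1 hb)

theorem card_sub {G : Type u} [Group G] {A B K : Subgroup G} (hA : A ≤ K) (h : K) :
    Nat.card ((A.subgroupOf K) ⊓ cj h (B.subgroupOf K) : Subgroup K) =
      Nat.card (A ⊓ cj (h : G) B : Subgroup G) := by
  refine Nat.card_congr ⟨fun y => ⟨y.1.1, ?_⟩, fun y => ⟨⟨y.1, hA y.2.1⟩, ?_⟩, fun y => ?_, fun y => ?_⟩
  · obtain ⟨y, hy⟩ := y
    refine ⟨Subgroup.mem_subgroupOf.1 hy.1, ?_⟩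
    have h2 := mem_cj.1 hy.2
    exact mem_cj.2 (Subgroup.mem_subgroupOf.1 h2)
  · refine ⟨Subgroup.mem_subgroupOf.2 y.2.1, ?_⟩
    refine mem_cj.2 (Subgroup.mem_subgroupOf.2 ?_)
    exact mem_cj.1 y.2.2
  · rfl
  · rfl

/-- Zenkov's theorem -/
theorem zenkov (hBS : S_BS.{u}) : ∀ n : ℕ, ∀ (G : Type u) [Group G] [Finite G], Nat.card G = n →
    ∀ A B : Subgroup G, Cm A → Cm B →
    (∀ g : G, Nat.card (A ⊓ B : Subgroup G) ≤ Nat.card (A ⊓ cj g B : Subgroup G)) →
    ∀ p : ℕ, p.Prime → ∀ x ∈ A ⊓ B, IsPGroup p (zpowers x) →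
    IsPGroup p (normalClosure {x}) := by
  intro n
  induction n using Nat.strong_induction_on with
  | _ n ih =>
  intro G _ _ hn A B hA hB hmin p hp x hx hxp
  haveI : Fact p.Prime := ⟨hp⟩
  by_cases hcase : ∃ g : G, A ⊔ cj g B = ⊤
  · obtain ⟨g, hg⟩ := hcase
    have hcen : A ⊓ cj g B ≤ center G := by
      intro y hy
      rw [Subgroup.mem_center_iff]
      have hA' : A ≤ Subgroup.centralizer {y} := by
        intro a ha
        rw [Subgroup.mem_centralizer_iff]
        intro z hz
        rw [Set.mem_singleton_iff] at hz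
        subst hz
        exact hA _ hy.1 _ ha
      have hB' : cj g B ≤ Subgroup.centralizer {y} := by
        intro a ha
        rw [Subgroup.mem_centralizer_iff]
        intro z hz
        rw [Set.mem_singleton_iff] at hz
        subst hz
        exact (hB.cj g) _ hy.2 _ ha
      have h3 : (⊤ : Subgroup G) ≤ Subgroup.centralizer {y} := by
        rw [← hg]
        exact sup_le hA' hB'
      intro z
      have h4 := h3 (Subgroup.mem_top z)
      rw [Subgroup.mem_centralizer_iff] at h4
      exact (h4 y rfl).symm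
    have hle : A ⊓ cj g B ≤ A ⊓ B := by
      intro y hy
      refine ⟨hy.1, ?_⟩
      have h1 := hcen hy
      rw [Subgroup.mem_center_iff] at h1
      have h2 := mem_cj.1 hy.2
      have h3 : g⁻¹ * y * g = y := by
        have := h1 g
        calc g⁻¹ * y * g = g⁻¹ * (y * g) := by group
          _ = g⁻¹ * (g * y) := by rw [this]
          _ = y := by group
      rwa [h3] at h2
    have heq : A ⊓ cj g B = A ⊓ B := Subgroup.eq_of_le_of_card_ge hle (hmin g)
    have hxc : x ∈ center G := by
      apply hcen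
      rw [heq]
      exact hx
    have hnc : normalClosure {x} ≤ zpowers x := by
      haveI : (zpowers x).Normal := by
        refine ⟨fun y hy g => ?_⟩
        obtain ⟨k, rfl⟩ := hy
        have h1 : g * (fun x_1 : ℤ => x ^ x_1) k * g⁻¹ = x ^ k := by
          have h2 : x ^ k ∈ center G := Subgroup.zpow_mem _ hxc k
          rw [Subgroup.mem_center_iff] at h2
          show g * x ^ k * g⁻¹ = x ^ k
          rw [h2 g]
          group
        rw [h1]
        exact ⟨k, rfl⟩
      apply Subgroup.normalClosure_le_normal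
      intro y hy
      rw [Set.mem_singleton_iff] at hy
      rw [hy]
      exact Subgroup.mem_zpowers x
    exact hxp.to_le hnc
  · push Not at hcase
    apply hBS G p x
    intro g
    set K := A ⊔ cj g B with hK
    have hAK : A ≤ K := le_sup_left
    have hBK : cj g B ≤ K := le_sup_right
    have hlt : Nat.card K < n := by
      rw [← hn]
      have hne := hcase g
      have h1 : Nat.card K ≤ Nat.card G := Subgroup.card_le_card_group K
      rcases lt_or_eq_of_le h1 with h | h
      · exact h
      · exact absurd (Subgroup.eq_top_of_card_eq K h) hne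
    -- the first element
    have hx1 : x ∈ K := hAK hx.1
    have h1 : IsPGroup p (normalClosure {(⟨x, hx1⟩ : K)}) := by
      apply ih _ hlt K rfl (A.subgroupOf K) (B.subgroupOf K) (hA.sub K) (hB.sub K) ?_ p hp
      · exact ⟨Subgroup.mem_subgroupOf.2 hx.1, Subgroup.mem_subgroupOf.2 hx.2⟩
      · intro y
        obtain ⟨y, k, rfl⟩ := y
        obtain ⟨j, hj⟩ := hxp ⟨x ^ k, k, rfl⟩
        refine ⟨j, ?_⟩
        apply Subtype.ext
        apply Subtype.ext
        have := congrArg Subtype.val hj
        simpa using this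
      · intro h
        have e1 := card_sub (B := B) hAK 1
        rw [cj_one] at e1
        have e2 := card_sub (B := B) hAK h
        rw [e2, e1]
        simpa [cj_one] using hmin h
    -- the second element
    have hx2 : g * x * g⁻¹ ∈ K := hBK (conj_mem_cj hx.2)
    have h2 : IsPGroup p (normalClosure {(⟨g * x * g⁻¹, hx2⟩ : K)}) := by
      apply ih _ hlt K rfl ((cj g B).subgroupOf K) ((cj g A).subgroupOf K) ((hB.cj g).sub K)
        ((hA.cj g).sub K) ?_ p hp
      · exact ⟨Subgroup.mem_subgroupOf.2 (conj_mem_cj hx.2), Subgroup.mem_subgroupOf.2 (conj_mem_cj hx.1)⟩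
      · intro y
        obtain ⟨y, k, rfl⟩ := y
        obtain ⟨j, hj⟩ := hxp ⟨x ^ k, k, rfl⟩
        refine ⟨j, ?_⟩
        apply Subtype.ext
        apply Subtype.ext
        have h5 := congrArg Subtype.val hj
        have h6 : (x ^ k) ^ p ^ j = 1 := by simpa using h5
        show ((g * x * g⁻¹) ^ k) ^ p ^ j = 1
        rw [conj_zpow, conj_pow, h6]
        group
      · intro h
        have e1 := card_sub (B := cj g A) hBK 1
        rw [cj_one] at e1
        have e2 := card_sub (B := cj g A) hBK h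
        rw [e2, e1]
        have e3 : Nat.card (cj g B ⊓ cj ((1 : K) : G) (cj g A) : Subgroup G) =
            Nat.card (A ⊓ B : Subgroup G) := by
          have : cj g B ⊓ cj ((1 : K) : G) (cj g A) = cj g (A ⊓ B) := by
            rw [cj_inf, inf_comm]
            simp [cj_one]
          rw [this, card_cj]
        have e4 : Nat.card (cj g B ⊓ cj ((h : K) : G) (cj g A) : Subgroup G) =
            Nat.card (A ⊓ cj ((h : G) * g)⁻¹ (cj g B) : Subgroup G) := by
          rw [← card_cj ((h : G) * g)⁻¹, cj_inf, cj_mul (h : G) g A, cj_mul _ _ A, inv_mul_cancel,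
            cj_one, inf_comm]
        rw [e3, e4, cj_mul]
        exact hmin _
    haveI := (Subgroup.normalClosure_normal (s := {(⟨g * x * g⁻¹, hx2⟩ : K)}))
    have h3 := IsPGroup.to_sup_of_normal_right h1 h2
    -- transfer to G
    have h4 : closure {(⟨x, hx1⟩ : K), ⟨g * x * g⁻¹, hx2⟩} ≤
        normalClosure {(⟨x, hx1⟩ : K)} ⊔ normalClosure {(⟨g * x * g⁻¹, hx2⟩ : K)} := by
      rw [Subgroup.closure_le]
      intro y hy
      rcases hy with rfl | rfl
      · exact (le_sup_left : _ ≤ normalClosure {(⟨x, hx1⟩ : K)} ⊔ normalClosure {(⟨g * x * g⁻¹, hx2⟩ : K)})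
          (Subgroup.subset_normalClosure rfl)
      · exact (le_sup_right : _ ≤ normalClosure {(⟨x, hx1⟩ : K)} ⊔ normalClosure {(⟨g * x * g⁻¹, hx2⟩ : K)})
          (Subgroup.subset_normalClosure rfl)
    have h5 := h3.to_le h4
    have h6 : closure {x, g * x * g⁻¹} =
        (closure {(⟨x, hx1⟩ : K), ⟨g * x * g⁻¹, hx2⟩}).map K.subtype := by
      rw [MonoidHom.map_closure]
      congr 1
      rw [Set.image_pair]
      rfl
    rw [h6]
    exact h5.map _

/-- a group without normal subgroups of prime power order: cyclic subgroups are small -/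
theorem order_sq_lt (hBS : S_BS.{u}) {G : Type u} [Group G] [Finite G] (hT : TG G)
    (h1 : 1 < Nat.card G) (x : G) : orderOf x ^ 2 < Nat.card G := by
  set A : Subgroup G := zpowers x with hA
  have hAc : Cm A := by
    intro a ha b hb
    obtain ⟨i, rfl⟩ := ha
    obtain ⟨j, rfl⟩ := hb
    show x ^ i * x ^ j = x ^ j * x ^ i
    rw [← zpow_add, ← zpow_add, add_comm]
  -- choose the conjugate with the smallest intersection
  obtain ⟨h, hh⟩ := Finite.exists_min (fun g : G => Nat.card (A ⊓ cj g A : Subgroup G))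
  have hbot : A ⊓ cj h A = ⊥ := by
    by_contra hne
    have hc : Nat.card (A ⊓ cj h A : Subgroup G) ≠ 1 := by
      intro hc
      exact hne (Subgroup.eq_bot_of_card_eq _ hc)
    obtain ⟨p, hp, hpd⟩ := Nat.exists_prime_and_dvd hc
    haveI : Fact p.Prime := ⟨hp⟩
    obtain ⟨y, hy⟩ := exists_prime_orderOf_dvd_card' p hpd
    have hyo : orderOf (y : G) = p := by
      rw [← hy]
      exact Subgroup.orderOf_coe y
    have hyp : IsPGroup p (zpowers (y : G)) := by
      apply IsPGroup.of_card (n := 1)
      rw [Nat.card_zpowers, hyo, pow_one]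
    have hz := zenkov hBS _ G rfl A (cj h A) hAc (hAc.cj h)
      (fun g => by rw [cj_mul]; exact hh (g * h)) p hp y y.2 hyp
    have h5 := hT p hp _ Subgroup.normalClosure_normal hz
    have h6 : (y : G) ∈ (⊥ : Subgroup G) := by
      rw [← h5]
      exact Subgroup.subset_normalClosure rfl
    rw [Subgroup.mem_bot] at h6
    rw [h6, orderOf_one] at hyo
    exact hp.one_lt.ne hyo
  have hcA : Nat.card A = orderOf x := Nat.card_zpowers x
  -- the product map
  let f : A × A → G := fun ab => (ab.1 : G) * (h * (ab.2 : G) * h⁻¹)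
  have hinj : Function.Injective f := by
    rintro ⟨a, b⟩ ⟨a', b'⟩ hab
    have e : (a : G) * (h * (b : G) * h⁻¹) = (a' : G) * (h * (b' : G) * h⁻¹) := hab
    have e2 : (a' : G)⁻¹ * (a : G) = h * ((b' : G) * (b : G)⁻¹) * h⁻¹ := by
      calc (a' : G)⁻¹ * (a : G) = (a' : G)⁻¹ * ((a : G) * (h * (b : G) * h⁻¹)) * (h * (b : G) * h⁻¹)⁻¹ := by group
        _ = (a' : G)⁻¹ * ((a' : G) * (h * (b' : G) * h⁻¹)) * (h * (b : G) * h⁻¹)⁻¹ := by rw [e]
        _ = h * ((b' : G) * (b : G)⁻¹) * h⁻¹ := by group
    have e3 : (a' : G)⁻¹ * (a : G) ∈ A ⊓ cj h A := by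
      refine ⟨A.mul_mem (A.inv_mem a'.2) a.2, ?_⟩
      rw [e2]
      exact conj_mem_cj (A.mul_mem b'.2 (A.inv_mem b.2))
    rw [hbot, Subgroup.mem_bot] at e3
    have e4 : (a : G) = a' := by
      have := congrArg (fun z => (a' : G) * z) e3
      simpa using this
    rw [e3] at e2
    have e5 : (b' : G) * (b : G)⁻¹ = 1 := by
      have := congrArg (fun z => h⁻¹ * z * h) e2
      simpa [mul_assoc] using this.symm
    have e6 : (b : G) = b' := by
      have := congrArg (fun z => z * (b : G)) e5
      simpa using this.symm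
    exact Prod.ext (Subtype.ext e4) (Subtype.ext e6)
  have hle : orderOf x ^ 2 ≤ Nat.card G := by
    have := Nat.card_le_card_of_injective f hinj
    rw [Nat.card_prod, hcA] at this
    rw [pow_two]
    exact this
  rcases lt_or_eq_of_le hle with hlt | heq
  · exact hlt
  · exfalso
    have hsurj : Function.Surjective f := by
      have hcard : Nat.card (A × A) = Nat.card G := by
        rw [Nat.card_prod, hcA, ← pow_two]
        exact heq
      exact ((Nat.bijective_iff_injective_and_card f).2 ⟨hinj, hcard⟩).2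
    obtain ⟨⟨a, b⟩, hab⟩ := hsurj h⁻¹
    have e : (a : G) * (h * (b : G) * h⁻¹) = h⁻¹ := hab
    have e2 : h = (a : G)⁻¹ * (b : G)⁻¹ := by
      have : (a : G) * h * (b : G) = 1 := by
        calc (a : G) * h * (b : G) = ((a : G) * (h * (b : G) * h⁻¹)) * h := by group
          _ = h⁻¹ * h := by rw [e]
          _ = 1 := by group
      calc h = (a : G)⁻¹ * ((a : G) * h * (b : G)) * (b : G)⁻¹ := by group
        _ = (a : G)⁻¹ * (b : G)⁻¹ := by rw [this]; group
    have hhA : h ∈ A := by
      rw [e2]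
      exact A.mul_mem (A.inv_mem a.2) (A.inv_mem b.2)
    have e3 : A ≤ A ⊓ cj h A := by
      intro y hy
      refine ⟨hy, mem_cj.2 ?_⟩
      exact A.mul_mem (A.mul_mem (A.inv_mem hhA) hy) hhA
    rw [hbot, le_bot_iff] at e3
    rw [e3] at hcA
    rw [Subgroup.card_bot] at hcA
    rw [← hcA] at heq
    omega

end Pool.Agent.R858.CY
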